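import Mathlib

open CategoryTheory

universe u

namespace Pool.Agent.Lib_helper54.GSC

section
variable {k : Type u} [Field k] {A : Type u} [Ring A] [Algebra k A]
  {M : Type u} [AddCommGroup M] [Module k M] [Module A M] [IsScalarTower k A M]
  {ι β : Type} [Fintype ι] [Fintype β] [DecidableEq ι] [DecidableEq β]

/-- The basis `e` of the algebra (with `e none = 1`) and the basis `v` of the module have the
structure constants `c` and `Y`. -/
structure IsRep (c : ι → ι → Option ι → k) (Y : ι → β → β → k)
    (e : Module.Basis (Option ι) k A) (v : Module.Basis β k M) : Prop where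
  one : e none = 1
  mul : ∀ i j, e (some i) * e (some j) = ∑ o, c i j o • e o
  act : ∀ i b, e (some i) • v b = ∑ b', Y i b b' • v b'

/-- The kernel of the canonical map from the free module `β → A` onto `M`. -/
abbrev Ker (A : Type u) [Ring A] {M : Type u} [AddCommGroup M] [Module A M] {β : Type}
    [Fintype β] (v : β → M) : Submodule A (β → A) :=
  LinearMap.ker (Fintype.linearCombination A v)

/-- The structure constants of the kernel. -/
def KY {R : Type*} [CommRing R] (c : ι → ι → Option ι → R) (Y : ι → β → β → R) :
    ι → (ι × β) → (ι × β) → R :=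
  fun i p q => (if p.2 = q.2 then c i p.1 (some q.1) else 0) -
    (if q.1 = i then Y p.1 p.2 q.2 else 0)

/-- The elements of the basis of the kernel. -/
noncomputable def kvec (Y : ι → β → β → k) (e : Module.Basis (Option ι) k A) (p : ι × β) :
    β → A :=
  fun b' => (if p.2 = b' then e (some p.1) else 0) - Y p.1 p.2 b' • (1 : A)

theorem kvec_mem {c : ι → ι → Option ι → k} {Y : ι → β → β → k}
    {e : Module.Basis (Option ι) k A} {v : Module.Basis β k M} (h : IsRep c Y e v)
    (p : ι × β) : kvec Y e p ∈ Ker A (v : β → M) := by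
  simp only [Ker, LinearMap.mem_ker, Fintype.linearCombination_apply, kvec, sub_smul,
    Finset.sum_sub_distrib, ite_smul, zero_smul, Finset.sum_ite_eq, Finset.mem_univ, if_true,
    h.act, smul_assoc, one_smul, sub_self]

/-- coordinates on the kernel -/
noncomputable def kcoord (e : Module.Basis (Option ι) k A) (v : Module.Basis β k M) :
    Ker A (v : β → M) →ₗ[k] (ι × β → k) where
  toFun x := fun p => e.repr ((x : β → A) p.2) (some p.1)
  map_add' x y := by ext p; simp
  map_smul' t x := by ext p; simp

theorem kcoord_kvec {c : ι → ι → Option ι → k} {Y : ι → β → β → k}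
    {e : Module.Basis (Option ι) k A} {v : Module.Basis β k M} (h : IsRep c Y e v)
    (p : ι × β) : kcoord e v ⟨kvec Y e p, kvec_mem h p⟩ = Pi.single p 1 := by
  ext q
  obtain ⟨j, b⟩ := p
  obtain ⟨l, b'⟩ := q
  have h1 : e.repr (1 : A) (some l) = 0 := by
    rw [← h.one, Module.Basis.repr_self, Finsupp.single_apply]; simp
  simp only [kcoord, LinearMap.coe_mk, AddHom.coe_mk, kvec, map_sub, Finsupp.coe_sub,
    Pi.sub_apply, map_smul, Finsupp.coe_smul, Pi.smul_apply, h1, smul_zero, sub_zero]
  by_cases hb : b = b'
  · subst hb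
    simp [Finsupp.single_apply, Pi.single_apply, Prod.ext_iff, eq_comm]
  · have : b' ≠ b := fun hh => hb hh.symm
    simp [hb, this, Pi.single_apply, Prod.ext_iff]

theorem kcoord_injective {c : ι → ι → Option ι → k} {Y : ι → β → β → k}
    {e : Module.Basis (Option ι) k A} {v : Module.Basis β k M} (h : IsRep c Y e v) :
    Function.Injective (kcoord e v) := by
  rw [injective_iff_map_eq_zero]
  rintro ⟨x, hx⟩ h0
  have hx' : ∀ b, x b = (e.repr (x b) none) • (1 : A) := by
    intro b
    conv_lhs => rw [← e.sum_repr (x b)]
    rw [Fintype.sum_option, h.one]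
    have : ∀ i, e.repr (x b) (some i) = 0 := fun i => congrFun h0 (i, b)
    simp [this]
  have hker : ∑ b, x b • v b = 0 := by
    simpa [Ker, Fintype.linearCombination_apply] using hx
  have h2 : ∑ b, (e.repr (x b) none) • v b = 0 := by
    rw [← hker]
    refine Finset.sum_congr rfl fun b _ => ?_
    conv_rhs => rw [hx' b]
    rw [smul_assoc, one_smul]
  have h3 := Fintype.linearIndependent_iff.mp v.linearIndependent _ h2
  ext b
  simp only [Subtype.coe_mk]
  rw [hx' b, h3 b, zero_smul]
  rfl

theorem kcoord_surjective {c : ι → ι → Option ι → k} {Y : ι → β → β → k}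
    {e : Module.Basis (Option ι) k A} {v : Module.Basis β k M} (h : IsRep c Y e v) :
    Function.Surjective (kcoord e v) := by
  intro y
  refine ⟨∑ p, y p • (⟨kvec Y e p, kvec_mem h p⟩ : Ker A (v : β → M)), ?_⟩
  rw [map_sum]
  simp only [map_smul, kcoord_kvec h]
  ext q
  simp [Finset.sum_apply, Pi.single_apply]

/-- the basis of the kernel -/
noncomputable def kbasis {c : ι → ι → Option ι → k} {Y : ι → β → β → k}
    {e : Module.Basis (Option ι) k A} {v : Module.Basis β k M} (h : IsRep c Y e v) :
    Module.Basis (ι × β) k (Ker A (v : β → M)) :=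
  Module.Basis.ofEquivFun
    (LinearEquiv.ofBijective (kcoord e v) ⟨kcoord_injective h, kcoord_surjective h⟩)

theorem kbasis_apply {c : ι → ι → Option ι → k} {Y : ι → β → β → k}
    {e : Module.Basis (Option ι) k A} {v : Module.Basis β k M} (h : IsRep c Y e v)
    (p : ι × β) : kbasis h p = ⟨kvec Y e p, kvec_mem h p⟩ := by
  apply kcoord_injective h
  rw [kcoord_kvec h]
  have : kcoord e v (kbasis h p) = (LinearEquiv.ofBijective (kcoord e v)
    ⟨kcoord_injective h, kcoord_surjective h⟩) (kbasis h p) := rfl
  rw [this, kbasis, Module.Basis.coe_ofEquivFun, LinearEquiv.apply_symm_apply]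

/-- B1: the kernel has the structure constants `KY c Y`. -/
theorem isRep_ker {c : ι → ι → Option ι → k} {Y : ι → β → β → k}
    {e : Module.Basis (Option ι) k A} {v : Module.Basis β k M} (h : IsRep c Y e v) :
    IsRep c (KY c Y) e (kbasis h) where
  one := h.one
  mul := h.mul
  act := by
    intro i p
    apply kcoord_injective h
    rw [map_sum]
    simp only [map_smul, kbasis_apply h, kcoord_kvec h]
    ext q
    obtain ⟨j, b⟩ := p
    obtain ⟨l, b'⟩ := q
    rw [Finset.sum_apply]
    simp only [Pi.smul_apply, Pi.single_apply, smul_eq_mul, mul_ite, mul_one, mul_zero,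
      Finset.sum_ite_eq, Finset.mem_univ, if_true]
    simp only [kcoord, LinearMap.coe_mk, AddHom.coe_mk, Submodule.coe_smul, kvec, Pi.smul_apply,
      smul_eq_mul, mul_sub, mul_ite, mul_zero, mul_smul_comm, mul_one, map_sub, map_smul,
      Finsupp.coe_sub, Finsupp.coe_smul, Pi.sub_apply, Module.Basis.repr_self, KY, h.mul]
    congr 1
    · split_ifs with hb
      · simp [map_sum, Finsupp.finset_sum_apply, Finsupp.single_apply]
      · simp
    · simp [Finsupp.single_apply, eq_comm]

/-- B1: dimension shift. -/
theorem pd_ker {v : β → M} (hv : Submodule.span A (Set.range v) = ⊤) (n : ℕ) :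
    HasProjectiveDimensionLT (ModuleCat.of A M) (n + 2) ↔
      HasProjectiveDimensionLT (ModuleCat.of A (Ker A v)) (n + 1) := by
  let g : (β → A) →ₗ[A] M := Fintype.linearCombination A v
  have hz : g ∘ₗ (Ker A v).subtype = 0 := by
    ext x; exact x.2
  let S : ShortComplex (ModuleCat.{u} A) :=
    ModuleCat.shortComplexOfCompEqZero (Ker A v).subtype g hz
  have hS : S.ShortExact := by
    refine ModuleCat.shortComplex_shortExact S ?_ (Ker A v).injective_subtype ?_
    · rw [LinearMap.exact_iff]
      exact (Submodule.range_subtype _).symm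
    · intro m
      have : m ∈ Submodule.span A (Set.range v) := by rw [hv]; trivial
      obtain ⟨a, ha⟩ := (Submodule.mem_span_range_iff_exists_fun A).mp this
      exact ⟨a, by simpa [g, S, Fintype.linearCombination_apply] using ha⟩
  have hP : Projective S.X₂ :=
    (IsProjective.iff_projective (R := A) (β → A)).mp inferInstance
  exact hS.hasProjectiveDimensionLT_X₃_iff n hP

end
end Pool.Agent.Lib_helper54.GSC
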