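import Mathlib
import Pool.Agent.Lib_helper54.GSC.B1

open CategoryTheory

universe u

set_option linter.unusedSectionVars false

namespace Pool.Agent.Lib_helper54.GSC

section
variable {k : Type u} [Field k] {A : Type u} [Ring A] [Algebra k A]
  {M : Type u} [AddCommGroup M] [Module k M] [Module A M] [IsScalarTower k A M]
  {N : Type u} [AddCommGroup N] [Module k N] [Module A N] [IsScalarTower k A N]
  {ι β γ : Type} [Fintype ι] [Fintype β] [Fintype γ] [DecidableEq ι] [DecidableEq β]
  [DecidableEq γ]

/-- The cocycle condition. -/
def Coc (c : ι → ι → Option ι → k) (e : Module.Basis (Option ι) k A)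
    (D : ι → M →ₗ[k] N) : Prop :=
  ∀ i j m, ∑ l, c i j (some l) • D l m = e (some i) • D j m + D i (e (some j) • m)

/-- Inner cochains. -/
def Inn (e : Module.Basis (Option ι) k A) (D : ι → M →ₗ[k] N) : Prop :=
  ∃ h : M →ₗ[k] N, ∀ i m, D i m = h (e (some i) • m) - e (some i) • h m

/-- extension of a cochain to the algebra -/
noncomputable def ext (e : Module.Basis (Option ι) k A) (D : ι → M →ₗ[k] N) :
    A →ₗ[k] M →ₗ[k] N :=
  e.constr k (fun o => o.elim 0 D)

theorem ext_none (e : Module.Basis (Option ι) k A) (D : ι → M →ₗ[k] N) :
    ext e D (e none) = 0 := by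
  simp [ext, Module.Basis.constr_basis]

theorem ext_some (e : Module.Basis (Option ι) k A) (D : ι → M →ₗ[k] N) (i : ι) :
    ext e D (e (some i)) = D i := by
  simp [ext, Module.Basis.constr_basis]

theorem ext_mul {c : ι → ι → Option ι → k} {Y : ι → β → β → k}
    {e : Module.Basis (Option ι) k A} {v : Module.Basis β k M} (h : IsRep c Y e v)
    {D : ι → M →ₗ[k] N} (hD : Coc c e D) (a b : A) (m : M) :
    ext e D (a * b) m = a • ext e D b m + ext e D a (b • m) := by
  let F : A →ₗ[k] A →ₗ[k] N := LinearMap.mk₂ k (fun a b => ext e D (a * b) m)
    (by intro a a' b; simp [add_mul]) (by intro t a b; simp [smul_mul_assoc])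
    (by intro a b b'; simp [mul_add]) (by intro t a b; simp [mul_smul_comm])
  let G : A →ₗ[k] A →ₗ[k] N := LinearMap.mk₂ k
    (fun a b => a • ext e D b m + ext e D a (b • m))
    (by intro a a' b; simp only [add_smul, map_add, LinearMap.add_apply]; abel)
    (by intro t a b; simp only [smul_assoc, map_smul, LinearMap.smul_apply, smul_add])
    (by intro a b b'; simp only [map_add, LinearMap.add_apply, smul_add, add_smul]; abel)
    (by intro t a b
        simp only [map_smul, LinearMap.smul_apply, smul_assoc, smul_add]
        rw [smul_comm a t])
  have : F = G := by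
    refine e.ext fun o => e.ext fun o' => ?_
    change ext e D (e o * e o') m = e o • ext e D (e o') m + ext e D (e o) (e o' • m)
    cases o with
    | none => rw [h.one, one_mul, one_smul, ← h.one, ext_none]; simp
    | some i =>
      cases o' with
      | none =>
        rw [ext_none, h.one, mul_one, one_smul]; simp
      | some j =>
        rw [ext_some, ext_some, h.mul, ← hD i j m, map_sum, LinearMap.sum_apply,
          Fintype.sum_option]
        simp [ext_none, ext_some]
  exact congrFun (congrArg DFunLike.coe (congrFun (congrArg DFunLike.coe this) a)) b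

/-- Over a projective module every cocycle is inner. -/
theorem inn_of_projective {c : ι → ι → Option ι → k} {Y : ι → β → β → k}
    {e : Module.Basis (Option ι) k A} {v : Module.Basis β k M} (h : IsRep c Y e v)
    (hP : Module.Projective A M) {D : ι → M →ₗ[k] N} (hD : Coc c e D) : Inn e D := by
  have hsurj : Function.Surjective (Fintype.linearCombination A (v : β → M)) := by
    intro m
    refine ⟨fun b => algebraMap k A (v.repr m b), ?_⟩
    rw [Fintype.linearCombination_apply]
    conv_rhs => rw [← v.sum_repr m]
    refine Finset.sum_congr rfl fun b _ => ?_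
    rw [algebraMap_smul]
  obtain ⟨s, hs⟩ := Module.projective_lifting_property
    (Fintype.linearCombination A (v : β → M)) LinearMap.id hsurj
  let hF : (β → A) →ₗ[k] N :=
    ∑ b, ((ext e D).flip (v b)) ∘ₗ (LinearMap.proj b : (β → A) →ₗ[k] A)
  have hFa : ∀ (a : A) (f : β → A), hF (a • f) =
      a • hF f + ext e D a (Fintype.linearCombination A (v : β → M) f) := by
    intro a f
    simp only [hF, LinearMap.sum_apply, LinearMap.comp_apply, LinearMap.proj_apply,
      LinearMap.flip_apply, Pi.smul_apply, smul_eq_mul, ext_mul h hD, Finset.sum_add_distrib,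
      Fintype.linearCombination_apply, map_sum, Finset.smul_sum]
  refine ⟨hF ∘ₗ (s.restrictScalars k), fun i m => ?_⟩
  have h1 : Fintype.linearCombination A (v : β → M) (s m) = m := by
    simpa using congrFun (congrArg DFunLike.coe hs) m
  simp only [LinearMap.comp_apply, LinearMap.coe_restrictScalars, map_smul, hFa, h1, ext_some,
    add_sub_cancel_left]

/-- If every cocycle with values in the kernel is inner, then the module is projective. -/
theorem projective_of_inn {c : ι → ι → Option ι → k} {Y : ι → β → β → k}
    {e : Module.Basis (Option ι) k A} {v : Module.Basis β k M} (h : IsRep c Y e v)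
    (hI : ∀ D : ι → M →ₗ[k] Ker A (v : β → M), Coc c e D → Inn e D) :
    Module.Projective A M := by
  let g : (β → A) →ₗ[A] M := Fintype.linearCombination A (v : β → M)
  let t : M →ₗ[k] (β → A) := v.constr k (fun b => Pi.single b (1 : A))
  have hgt : ∀ m, g (t m) = m := by
    intro m
    have : (g.restrictScalars k) ∘ₗ t = LinearMap.id := by
      refine v.ext fun b => ?_
      simp only [LinearMap.comp_apply, t, Module.Basis.constr_basis,
        LinearMap.coe_restrictScalars, g, LinearMap.id_apply]
      rw [Fintype.linearCombination_apply_single, one_smul]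
    exact congrFun (congrArg DFunLike.coe this) m
  have hmem : ∀ (a : A) (m : M), a • t m - t (a • m) ∈ Ker A (v : β → M) := by
    intro a m
    rw [Ker, LinearMap.mem_ker, map_sub, map_smul]
    change a • g (t m) - g (t (a • m)) = 0
    rw [hgt, hgt, sub_self]
  let D : ι → M →ₗ[k] Ker A (v : β → M) := fun i =>
    { toFun := fun m => ⟨e (some i) • t m - t (e (some i) • m), hmem _ _⟩
      map_add' := by
        intro x y
        apply Subtype.ext
        simp only [map_add, smul_add, Submodule.coe_add]
        abel
      map_smul' := by
        intro r x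
        apply Subtype.ext
        simp only [map_smul, RingHom.id_apply, Submodule.coe_smul_of_tower, smul_sub]
        rw [smul_comm (e (some i)) r x, smul_comm (e (some i)) r (t x), map_smul] }
  have hD : Coc c e D := by
    intro i j m
    apply Subtype.ext
    simp only [D, LinearMap.coe_mk, AddHom.coe_mk, Submodule.coe_add, Submodule.coe_smul,
      AddSubmonoidClass.coe_finset_sum, Submodule.coe_smul_of_tower]
    have hm : e (some i) • e (some j) • m = (∑ o, c i j o • e o) • m := by
      rw [← mul_smul, h.mul]
    have ht : e (some i) • e (some j) • t m = (∑ o, c i j o • e o) • t m := by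
      rw [← mul_smul, h.mul]
    rw [smul_sub, hm, ht, Fintype.sum_option, h.one]
    simp only [add_smul, Finset.sum_smul, smul_assoc, one_smul, map_add, map_sum, map_smul,
      smul_sub, Finset.sum_sub_distrib]
    abel
  obtain ⟨hh, hhD⟩ := hI D hD
  have key : ∀ (a : A) (m : M), t (a • m) + (hh (a • m) : β → A) =
      a • (t m + (hh m : β → A)) := by
    intro a m
    let L : A →ₗ[k] (β → A) :=
      { toFun := fun a => t (a • m) + (hh (a • m) : β → A)
        map_add' := by
          intro x y
          simp only [add_smul, map_add, Submodule.coe_add]; abel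
        map_smul' := by
          intro r x
          simp only [smul_assoc, map_smul, Submodule.coe_smul_of_tower, RingHom.id_apply,
            smul_add] }
    let L' : A →ₗ[k] (β → A) :=
      { toFun := fun a => a • (t m + (hh m : β → A))
        map_add' := by intro x y; rw [add_smul]
        map_smul' := by intro r x; rw [smul_assoc, RingHom.id_apply] }
    have : L = L' := by
      refine e.ext fun o => ?_
      change t (e o • m) + (hh (e o • m) : β → A) = e o • (t m + (hh m : β → A))
      cases o with
      | none => rw [h.one, one_smul, one_smul]
      | some i =>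
        have h1 := congrArg (fun z : Ker A (v : β → M) => (z : β → A)) (hhD i m)
        simp only [D, LinearMap.coe_mk, AddHom.coe_mk, Submodule.coe_sub,
          Submodule.coe_smul] at h1
        rw [smul_add, ← sub_eq_zero]
        rw [← sub_eq_zero] at h1
        rw [← neg_eq_zero, ← h1]
        abel
    exact congrFun (congrArg DFunLike.coe this) a
  let s : M →ₗ[A] (β → A) :=
    { toFun := fun m => t m + (hh m : β → A)
      map_add' := by
        intro x y
        simp only [map_add, Submodule.coe_add]; abel
      map_smul' := by
        intro a m
        exact key a m }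
  refine Module.Projective.of_split s g ?_
  ext m
  simp only [LinearMap.comp_apply, LinearMap.id_apply, s, LinearMap.coe_mk, AddHom.coe_mk,
    map_add]
  have : g (hh m : β → A) = 0 := (hh m).2
  rw [this, add_zero, hgt]

end
end Pool.Agent.Lib_helper54.GSC
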