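import Mathlib
import Pool.Agent.Lib_helper54.GSC.B2

open CategoryTheory

universe u

set_option linter.unusedSectionVars false

namespace Pool.Agent.Lib_helper54.GSC

theorem exact_iff_rank {k : Type*} [Field k] {p q n : Type*} [Fintype p] [Fintype q] [Fintype n]
    (M1 : Matrix q p k) (M0 : Matrix p n k) (h : M1 * M0 = 0) :
    (∀ x, M1.mulVec x = 0 → ∃ y, M0.mulVec y = x) ↔ M0.rank + M1.rank = Fintype.card p := by
  have hle : LinearMap.range M0.mulVecLin ≤ LinearMap.ker M1.mulVecLin := by
    rintro x ⟨y, rfl⟩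
    rw [LinearMap.mem_ker, Matrix.mulVecLin_apply, Matrix.mulVecLin_apply, Matrix.mulVec_mulVec,
      h, Matrix.zero_mulVec]
  have hrn := LinearMap.finrank_range_add_finrank_ker M1.mulVecLin
  rw [Module.finrank_fintype_fun_eq_card] at hrn
  constructor
  · intro hx
    have : LinearMap.range M0.mulVecLin = LinearMap.ker M1.mulVecLin := by
      refine le_antisymm hle ?_
      intro x hx'
      obtain ⟨y, hy⟩ := hx x (by simpa using hx')
      exact ⟨y, by simpa using hy⟩
    rw [Matrix.rank, Matrix.rank, this, ← hrn, add_comm]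
  · intro hr x hx
    have : LinearMap.range M0.mulVecLin = LinearMap.ker M1.mulVecLin := by
      refine Submodule.eq_of_le_of_finrank_eq hle ?_
      rw [Matrix.rank, Matrix.rank] at hr
      omega
    have hx' : x ∈ LinearMap.ker M1.mulVecLin := by simpa using hx
    rw [← this] at hx'
    obtain ⟨y, hy⟩ := hx'
    exact ⟨y, by simpa using hy⟩

section
variable {ι β γ : Type} [Fintype ι] [Fintype β] [Fintype γ] [DecidableEq ι] [DecidableEq β]
  [DecidableEq γ]

/-- The matrix of the inner cochains. -/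
def M0 {R : Type*} [CommRing R] (Y : ι → β → β → R) (Z : ι → γ → γ → R) :
    Matrix (ι × β × γ) (β × γ) R :=
  fun p q => (if p.2.2 = q.2 then Y p.1 p.2.1 q.1 else 0) -
    (if p.2.1 = q.1 then Z p.1 q.2 p.2.2 else 0)

/-- The matrix of the cocycle condition. -/
def M1 {R : Type*} [CommRing R] (c : ι → ι → Option ι → R) (Y : ι → β → β → R)
    (Z : ι → γ → γ → R) : Matrix (ι × ι × β × γ) (ι × β × γ) R :=
  fun p q => (if p.2.2.1 = q.2.1 ∧ p.2.2.2 = q.2.2 then c p.1 p.2.1 (some q.1) else 0) -
    (if p.2.1 = q.1 ∧ p.2.2.1 = q.2.1 then Z p.1 q.2.2 p.2.2.2 else 0) -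
    (if p.1 = q.1 ∧ p.2.2.2 = q.2.2 then Y p.2.1 p.2.2.1 q.2.1 else 0)

theorem M0_map {R S : Type*} [CommRing R] [CommRing S] (φ : R →+* S) (Y : ι → β → β → R)
    (Z : ι → γ → γ → R) :
    (M0 Y Z).map φ = M0 (fun i b b' => φ (Y i b b')) (fun i b b' => φ (Z i b b')) := by
  ext p q
  simp only [M0, Matrix.map_apply, map_sub]
  split_ifs <;> simp

theorem M1_map {R S : Type*} [CommRing R] [CommRing S] (φ : R →+* S) (c : ι → ι → Option ι → R)
    (Y : ι → β → β → R) (Z : ι → γ → γ → R) :
    (M1 c Y Z).map φ = M1 (fun i j o => φ (c i j o)) (fun i b b' => φ (Y i b b'))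
      (fun i b b' => φ (Z i b b')) := by
  ext p q
  simp only [M1, Matrix.map_apply, map_sub]
  split_ifs <;> simp

theorem KY_map {R S : Type*} [CommRing R] [CommRing S] (φ : R →+* S) (c : ι → ι → Option ι → R)
    (Y : ι → β → β → R) (i : ι) (p q : ι × β) :
    φ (KY c Y i p q) = KY (fun i j o => φ (c i j o)) (fun i b b' => φ (Y i b b')) i p q := by
  simp only [KY, map_sub]
  split_ifs <;> simp

variable {k : Type u} [Field k] {A : Type u} [Ring A] [Algebra k A]
  {M : Type u} [AddCommGroup M] [Module k M] [Module A M] [IsScalarTower k A M]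
  {N : Type u} [AddCommGroup N] [Module k N] [Module A N] [IsScalarTower k A N]

/-- coordinates of a cochain -/
noncomputable def crd (v : Module.Basis β k M) (w : Module.Basis γ k N) (D : ι → M →ₗ[k] N) :
    ι × β × γ → k :=
  fun p => w.repr (D p.1 (v p.2.1)) p.2.2

theorem crd_surj (v : Module.Basis β k M) (w : Module.Basis γ k N) (x : ι × β × γ → k) :
    ∃ D : ι → M →ₗ[k] N, crd v w D = x := by
  refine ⟨fun i => v.constr k (fun b => ∑ g, x (i, b, g) • w g), ?_⟩
  ext p
  simp [crd, Module.Basis.constr_basis, Finsupp.single_apply]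

theorem crd_hom_surj (v : Module.Basis β k M) (w : Module.Basis γ k N) (x : β × γ → k) :
    ∃ h : M →ₗ[k] N, ∀ b g, w.repr (h (v b)) g = x (b, g) := by
  refine ⟨v.constr k (fun b => ∑ g, x (b, g) • w g), ?_⟩
  intro b g
  simp [Module.Basis.constr_basis, Finsupp.single_apply]

theorem act_repr {c : ι → ι → Option ι → k} {Z : ι → γ → γ → k}
    {e : Module.Basis (Option ι) k A} {w : Module.Basis γ k N} (hN : IsRep c Z e w)
    (i : ι) (n : N) (g : γ) :
    w.repr (e (some i) • n) g = ∑ g', w.repr n g' * Z i g' g := by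
  conv_lhs => rw [← w.sum_repr n]
  rw [Finset.smul_sum, map_sum, Finsupp.finsetSum_apply]
  refine Finset.sum_congr rfl fun g' _ => ?_
  rw [smul_comm, hN.act, map_smul, Finsupp.smul_apply, map_sum, Finsupp.finsetSum_apply]
  simp [Finsupp.single_apply]

theorem coc_iff {c : ι → ι → Option ι → k} {Y : ι → β → β → k} {Z : ι → γ → γ → k}
    {e : Module.Basis (Option ι) k A} {v : Module.Basis β k M} {w : Module.Basis γ k N}
    (hM : IsRep c Y e v) (hN : IsRep c Z e w) (D : ι → M →ₗ[k] N) :
    Coc c e D ↔ (M1 c Y Z).mulVec (crd v w D) = 0 := by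
  have key : ∀ i j b g, (M1 c Y Z).mulVec (crd v w D) (i, j, b, g) =
      w.repr (∑ l, c i j (some l) • D l (v b) - e (some i) • D j (v b) -
        D i (e (some j) • v b)) g := by
    intro i j b g
    rw [map_sub, map_sub, Finsupp.sub_apply, Finsupp.sub_apply, act_repr hN, hM.act, map_sum,
      map_sum, map_sum, Finsupp.finsetSum_apply, Finsupp.finsetSum_apply]
    simp only [map_smul, Finsupp.smul_apply, smul_eq_mul]
    simp only [Matrix.mulVec, dotProduct, M1, crd, sub_mul, Finset.sum_sub_distrib,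
      Fintype.sum_prod_type, ite_mul, zero_mul, ite_and, Finset.sum_ite_irrel,
      Finset.sum_const_zero, Finset.sum_ite_eq, Finset.mem_univ, if_true]
    congr 1
    congr 1
    exact Finset.sum_congr rfl fun g' _ => mul_comm _ _
  constructor
  · intro h
    ext ⟨i, j, b, g⟩
    rw [key, h i j (v b)]
    simp
  · intro h i j
    have : ∀ m, (∑ l, c i j (some l) • D l m) = e (some i) • D j m + D i (e (some j) • m) := by
      intro m
      let F : M →ₗ[k] N := ∑ l, c i j (some l) • D l
      let G : M →ₗ[k] N := (Algebra.lsmul k k N (e (some i))) ∘ₗ D j +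
        D i ∘ₗ (Algebra.lsmul k k M (e (some j)))
      have : F = G := by
        refine v.ext fun b => ?_
        apply w.repr.injective
        ext g
        have h1 := congrFun h (i, j, b, g)
        rw [key] at h1
        simp only [F, G, LinearMap.sum_apply, LinearMap.smul_apply, LinearMap.add_apply,
          LinearMap.comp_apply, Algebra.lsmul_coe]
        rw [← sub_eq_zero, ← Finsupp.sub_apply, ← map_sub, ← sub_sub]
        exact h1
      have := congrFun (congrArg DFunLike.coe this) m
      simpa [F, G] using this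
    exact this

theorem inn_iff {c : ι → ι → Option ι → k} {Y : ι → β → β → k} {Z : ι → γ → γ → k}
    {e : Module.Basis (Option ι) k A} {v : Module.Basis β k M} {w : Module.Basis γ k N}
    (hM : IsRep c Y e v) (hN : IsRep c Z e w) (D : ι → M →ₗ[k] N) :
    Inn e D ↔ ∃ y, (M0 Y Z).mulVec y = crd v w D := by
  have key : ∀ (h : M →ₗ[k] N) (i b g),
      (M0 Y Z).mulVec (fun q => w.repr (h (v q.1)) q.2) (i, b, g) =
      w.repr (h (e (some i) • v b) - e (some i) • h (v b)) g := by
    intro h i b g
    rw [map_sub, Finsupp.sub_apply, act_repr hN, hM.act, map_sum, map_sum,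
      Finsupp.finsetSum_apply]
    simp only [map_smul, Finsupp.smul_apply, smul_eq_mul]
    simp only [Matrix.mulVec, dotProduct, M0, sub_mul, Finset.sum_sub_distrib,
      Fintype.sum_prod_type, ite_mul, zero_mul, Finset.sum_ite_irrel,
      Finset.sum_const_zero, Finset.sum_ite_eq, Finset.mem_univ, if_true]
    congr 1
    exact Finset.sum_congr rfl fun g' _ => mul_comm _ _
  constructor
  · rintro ⟨h, hh⟩
    refine ⟨fun q => w.repr (h (v q.1)) q.2, ?_⟩
    ext ⟨i, b, g⟩
    rw [key, crd, hh]
  · rintro ⟨y, hy⟩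
    obtain ⟨h, hh⟩ := crd_hom_surj v w y
    refine ⟨h, fun i => ?_⟩
    have : ∀ m, D i m = h (e (some i) • m) - e (some i) • h m := by
      intro m
      let G : M →ₗ[k] N := h ∘ₗ (Algebra.lsmul k k M (e (some i))) -
        (Algebra.lsmul k k N (e (some i))) ∘ₗ h
      have hG : D i = G := by
        refine v.ext fun b => ?_
        apply w.repr.injective
        ext g
        have hy' : (fun q : β × γ => w.repr (h (v q.1)) q.2) = y := by
          ext q; exact hh q.1 q.2
        have h1 := congrFun hy (i, b, g)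
        rw [← hy', key] at h1
        exact h1.symm
      rw [hG]
      simp [G]
    exact this

theorem M1_mul_M0 {c : ι → ι → Option ι → k} {Y : ι → β → β → k} {Z : ι → γ → γ → k}
    {e : Module.Basis (Option ι) k A} {v : Module.Basis β k M} {w : Module.Basis γ k N}
    (hM : IsRep c Y e v) (hN : IsRep c Z e w) : M1 c Y Z * M0 Y Z = 0 := by
  apply Matrix.mulVec_injective
  ext1 y
  rw [← Matrix.mulVec_mulVec, Matrix.zero_mulVec]
  obtain ⟨D, hD⟩ := crd_surj (ι := ι) v w ((M0 Y Z).mulVec y)
  have hI : Inn e D := (inn_iff hM hN D).mpr ⟨y, hD.symm⟩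
  rw [← hD, ← coc_iff hM hN]
  obtain ⟨h, hh⟩ := hI
  intro i j m
  simp only [hh, smul_sub, Finset.sum_sub_distrib]
  have h1 : e (some i) • e (some j) • m = (∑ o, c i j o • e o) • m := by
    rw [← mul_smul, hM.mul]
  have h2 : e (some i) • e (some j) • h m = (∑ o, c i j o • e o) • h m := by
    rw [← mul_smul, hM.mul]
  rw [h1, h2, Fintype.sum_option, hM.one]
  simp only [add_smul, Finset.sum_smul, smul_assoc, one_smul, map_add, map_sum, map_smul]
  abel

/-- The rank criterion. -/
theorem inn_iff_rank {c : ι → ι → Option ι → k} {Y : ι → β → β → k} {Z : ι → γ → γ → k}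
    {e : Module.Basis (Option ι) k A} {v : Module.Basis β k M} {w : Module.Basis γ k N}
    (hM : IsRep c Y e v) (hN : IsRep c Z e w) :
    (∀ D : ι → M →ₗ[k] N, Coc c e D → Inn e D) ↔
      (M0 Y Z).rank + (M1 c Y Z).rank = Fintype.card (ι × β × γ) := by
  rw [← exact_iff_rank _ _ (M1_mul_M0 hM hN)]
  constructor
  · intro h x hx
    obtain ⟨D, rfl⟩ := crd_surj (ι := ι) v w x
    exact (inn_iff hM hN D).mp (h D ((coc_iff hM hN D).mpr hx))
  · intro h D hD
    exact (inn_iff hM hN D).mpr (h _ ((coc_iff hM hN D).mp hD))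

/-- B2: the rank criterion for projectivity. -/
theorem projective_iff_rank {c : ι → ι → Option ι → k} {Y : ι → β → β → k}
    {e : Module.Basis (Option ι) k A} {v : Module.Basis β k M} (h : IsRep c Y e v) :
    Module.Projective A M ↔
      (M0 Y (KY c Y)).rank + (M1 c Y (KY c Y)).rank = Fintype.card (ι × β × (ι × β)) := by
  rw [← inn_iff_rank h (isRep_ker h)]
  exact ⟨fun hP D hD => inn_of_projective h hP hD, fun hI => projective_of_inn h hI⟩

end
end Pool.Agent.Lib_helper54.GSC
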