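import Mathlib

universe u

namespace Pool.Agent.Lib_helper54.GSC

theorem exists_minor {k : Type*} [Field k] {m n : Type*} [Fintype m] [Fintype n]
    (M : Matrix m n k) : ∃ (f : Fin M.rank → m) (g : Fin M.rank → n),
      (M.submatrix f g).det ≠ 0 := by
  classical
  -- independent columns
  obtain ⟨c, hc, -, hcl⟩ := Submodule.exists_fun_fin_finrank_span_eq k (Set.range M.col)
  choose g hg using hc
  have hr : Module.finrank k (Submodule.span k (Set.range M.col)) = M.rank :=
    (M.rank_eq_finrank_span_cols).symm
  let g' : Fin M.rank → n := fun i => g (Fin.cast hr.symm i)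
  have h1 : LinearIndependent k (M.submatrix id g').col := by
    have : (M.submatrix id g').col = c ∘ (Fin.cast hr.symm) := by
      funext i
      simp only [Function.comp, ← hg]
      rfl
    rw [this]
    exact hcl.comp _ (Fin.cast_injective _)
  have h2 : (M.submatrix id g').rank = M.rank := by
    rw [Matrix.rank_eq_finrank_span_cols, finrank_span_eq_card h1, Fintype.card_fin]
  -- independent rows
  obtain ⟨c', hc', -, hcl'⟩ := Submodule.exists_fun_fin_finrank_span_eq k
    (Set.range (M.submatrix id g').row)
  choose f hf using hc'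
  have hr' : Module.finrank k (Submodule.span k (Set.range (M.submatrix id g').row)) =
      M.rank := by
    rw [← Matrix.rank_eq_finrank_span_row, h2]
  let f' : Fin M.rank → m := fun i => f (Fin.cast hr'.symm i)
  refine ⟨f', g', ?_⟩
  have h3 : LinearIndependent k (M.submatrix f' g').row := by
    have : (M.submatrix f' g').row = c' ∘ (Fin.cast hr'.symm) := by
      funext i
      simp only [Function.comp, ← hf]
      rfl
    rw [this]
    exact hcl'.comp _ (Fin.cast_injective _)
  have h4 := Matrix.linearIndependent_rows_iff_isUnit.mp h3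
  exact ((Matrix.isUnit_iff_isUnit_det _).mp h4).ne_zero

theorem rank_open {P : Type*} [CommRing P] {m n : Type*} [Fintype m] [Fintype n]
    (D : Matrix m n P) {k : Type u} [Field k] (φ : P →+* k) :
    ∃ f : P, φ f ≠ 0 ∧ ∀ {k' : Type u} [Field k'] (φ' : P →+* k'), φ' f ≠ 0 →
      (D.map φ).rank ≤ (D.map φ').rank := by
  obtain ⟨f, g, hfg⟩ := exists_minor (D.map φ)
  refine ⟨(D.submatrix f g).det, ?_, ?_⟩
  · rw [RingHom.map_det]
    exact hfg
  · intro k' _ φ' h
    rw [RingHom.map_det] at h
    have hu : IsUnit ((D.submatrix f g).map φ') :=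
      (Matrix.isUnit_iff_isUnit_det _).mpr (isUnit_iff_ne_zero.mpr h)
    have h1 : ((D.map φ').submatrix f g).rank = (D.map φ).rank := by
      have := Matrix.rank_of_isUnit _ hu
      rw [Fintype.card_fin] at this
      exact this
    rw [← h1]
    exact Matrix.rank_submatrix_le _ _ _

end Pool.Agent.Lib_helper54.GSC
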