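import Mathlib
import Pool.Agent.Lib_helper54.GSC.B2b
import Pool.Agent.Lib_helper54.GSC.B3a

open CategoryTheory

universe u

namespace Pool.Agent.Lib_helper54.GSC

theorem pd_one_iff {A : Type u} [Ring A] {M : Type u} [AddCommGroup M] [Module A M] :
    HasProjectiveDimensionLT (ModuleCat.of A M) 1 ↔ Module.Projective A M := by
  rw [← projective_iff_hasProjectiveDimensionLT_one, IsProjective.iff_projective]

theorem span_eq_top {k : Type u} [Field k] {A : Type u} [Ring A] [Algebra k A]
    {M : Type u} [AddCommGroup M] [Module k M] [Module A M] [IsScalarTower k A M]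
    {β : Type} (v : Module.Basis β k M) : Submodule.span A (Set.range (v : β → M)) = ⊤ := by
  rw [eq_top_iff]
  intro m _
  have h : m ∈ Submodule.span k (Set.range (v : β → M)) := by rw [v.span_eq]; trivial
  exact Submodule.span_subset_span k A _ h

/-- The set of points at which the projective dimension is at most `m` is open. -/
theorem open_lemma {σ : Type} {ι : Type} [Fintype ι] [DecidableEq ι]
    (c : ι → ι → Option ι → MvPolynomial σ ℤ) (m : ℕ) :
    ∀ {β : Type} [Fintype β] [DecidableEq β] (Y : ι → β → β → MvPolynomial σ ℤ)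
    {k A M : Type u} [Field k] [Ring A] [Algebra k A] [AddCommGroup M] [Module k M]
    [Module A M] [IsScalarTower k A M] (φ : MvPolynomial σ ℤ →+* k)
    (e : Module.Basis (Option ι) k A) (v : Module.Basis β k M),
    IsRep (fun i j o => φ (c i j o)) (fun i b b' => φ (Y i b b')) e v →
    HasProjectiveDimensionLT (ModuleCat.of A M) (m + 1) →
    ∃ f : MvPolynomial σ ℤ, φ f ≠ 0 ∧ ∀ {k' A' M' : Type u} [Field k'] [Ring A']
      [Algebra k' A'] [AddCommGroup M'] [Module k' M'] [Module A' M'] [IsScalarTower k' A' M']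
      (φ' : MvPolynomial σ ℤ →+* k') (e' : Module.Basis (Option ι) k' A')
      (v' : Module.Basis β k' M'),
      IsRep (fun i j o => φ' (c i j o)) (fun i b b' => φ' (Y i b b')) e' v' →
      φ' f ≠ 0 → HasProjectiveDimensionLT (ModuleCat.of A' M') (m + 1) := by
  induction m with
  | zero =>
    intro β _ _ Y k A M _ _ _ _ _ _ _ φ e v h hpd
    rw [zero_add, pd_one_iff, projective_iff_rank h] at hpd
    obtain ⟨f0, hf0, h0⟩ := rank_open (M0 Y (KY c Y)) φ
    obtain ⟨f1, hf1, h1⟩ := rank_open (M1 c Y (KY c Y)) φ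
    refine ⟨f0 * f1, by rw [map_mul]; exact mul_ne_zero hf0 hf1, ?_⟩
    intro k' A' M' _ _ _ _ _ _ _ φ' e' v' h' hf
    rw [map_mul] at hf
    have e0 := h0 φ' (left_ne_zero_of_mul hf)
    have e1 := h1 φ' (right_ne_zero_of_mul hf)
    rw [M0_map, M0_map] at e0
    rw [M1_map, M1_map] at e1
    simp only [KY_map] at e0 e1
    rw [zero_add, pd_one_iff, projective_iff_rank h']
    have hle := Matrix.rank_add_rank_le_card_of_mul_eq_zero (M1_mul_M0 h' (isRep_ker h'))
    refine le_antisymm (by rw [add_comm]; exact hle) ?_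
    rw [← hpd]
    exact add_le_add e0 e1
  | succ m ih =>
    intro β _ _ Y k A M _ _ _ _ _ _ _ φ e v h hpd
    have hr := isRep_ker h
    have hr' : IsRep (fun i j o => φ (c i j o)) (fun i b b' => φ (KY c Y i b b')) e
        (kbasis h) := by
      simp only [KY_map]
      exact hr
    have hpd' := (pd_ker (span_eq_top v) m).mp hpd
    obtain ⟨f, hf, hh⟩ := ih (KY c Y) φ e (kbasis h) hr' hpd'
    refine ⟨f, hf, ?_⟩
    intro k' A' M' _ _ _ _ _ _ _ φ' e' v' h' hf'
    have hr2 : IsRep (fun i j o => φ' (c i j o)) (fun i b b' => φ' (KY c Y i b b')) e'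
        (kbasis h') := by
      simp only [KY_map]
      exact isRep_ker h'
    exact (pd_ker (span_eq_top v') m).mpr (hh φ' e' (kbasis h') hr2 hf')

end Pool.Agent.Lib_helper54.GSC
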