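import Mathlib
import Pool.Agent.Lib_helper54.GSC.B3

open CategoryTheory

universe u

namespace Pool.Agent.Lib_helper54.GSC

/-- `f` is good for `m`: where `f` does not vanish, the projective dimension is at most `m`. -/
def Good {σ ι β : Type} [Fintype ι] [DecidableEq ι] [Fintype β] [DecidableEq β]
    (c : ι → ι → Option ι → MvPolynomial σ ℤ) (Y : ι → β → β → MvPolynomial σ ℤ) (m : ℕ)
    (f : MvPolynomial σ ℤ) : Prop :=
  ∀ (k' A' M' : Type u) [Field k'] [Ring A'] [Algebra k' A'] [AddCommGroup M'] [Module k' M']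
    [Module A' M'] [IsScalarTower k' A' M'] (φ' : MvPolynomial σ ℤ →+* k')
    (e' : Module.Basis (Option ι) k' A') (v' : Module.Basis β k' M'),
    IsRep (fun i j o => φ' (c i j o)) (fun i b b' => φ' (Y i b b')) e' v' →
    φ' f ≠ 0 → HasProjectiveDimensionLT (ModuleCat.of A' M') (m + 1)

/-- B4: the finite projective dimensions in a family are bounded. -/
theorem bounded_family {σ ι β : Type} [Finite σ] [Fintype ι] [DecidableEq ι] [Fintype β]
    [DecidableEq β] (c : ι → ι → Option ι → MvPolynomial σ ℤ)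
    (Y : ι → β → β → MvPolynomial σ ℤ) :
    ∃ m₀ : ℕ, ∀ (k A M : Type u) [Field k] [Ring A] [Algebra k A] [AddCommGroup M] [Module k M]
      [Module A M] [IsScalarTower k A M] (φ : MvPolynomial σ ℤ →+* k)
      (e : Module.Basis (Option ι) k A) (v : Module.Basis β k M),
      IsRep (fun i j o => φ (c i j o)) (fun i b b' => φ (Y i b b')) e v →
      (∃ p, HasProjectiveDimensionLT (ModuleCat.of A M) p) →
      HasProjectiveDimensionLT (ModuleCat.of A M) (m₀ + 1) := by
  let J : ℕ →o Ideal (MvPolynomial σ ℤ) :=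
    { toFun := fun m => Ideal.span {f | Good.{u} c Y m f}
      monotone' := by
        intro m n hmn
        refine Ideal.span_mono ?_
        intro f hf k' A' M' _ _ _ _ _ _ _ φ' e' v' h hf'
        have := hf k' A' M' φ' e' v' h hf'
        exact hasProjectiveDimensionLT_of_ge _ (m + 1) (n + 1) (by omega) }
  obtain ⟨m₀, hm₀⟩ := monotone_stabilizes_iff_noetherian.mpr
    (inferInstance : IsNoetherian (MvPolynomial σ ℤ) (MvPolynomial σ ℤ)) J
  refine ⟨m₀, ?_⟩
  intro k A M _ _ _ _ _ _ _ φ e v h ⟨p, hp⟩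
  have hp' : HasProjectiveDimensionLT (ModuleCat.of A M) (max p m₀ + 1) :=
    hasProjectiveDimensionLT_of_ge _ p _ (by omega)
  obtain ⟨f, hf, hgood⟩ := open_lemma c (max p m₀) Y φ e v h hp'
  have hfJ : f ∈ J m₀ := by
    rw [hm₀ (max p m₀) (le_max_right _ _)]
    refine Ideal.subset_span ?_
    intro k' A' M' _ _ _ _ _ _ _ φ' e' v' h' hf'
    exact hgood φ' e' v' h' hf'
  by_contra hcon
  have hle : J m₀ ≤ RingHom.ker φ := by
    refine Ideal.span_le.mpr ?_
    intro g hg
    by_contra hg0
    exact hcon (hg k A M φ e v h hg0)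
  exact hf (hle hfJ)

end Pool.Agent.Lib_helper54.GSC
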