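import Mathlib
import Pool.Agent.Lib_helper54.GSC.B4

open CategoryTheory

universe u

namespace Pool.Agent.Lib_helper54.GSC

theorem exists_basis_one {k : Type u} [Field k] {A : Type u} [Ring A] [Algebra k A]
    [Nontrivial A] [Module.Finite k A] {n : ℕ} (hn : Module.finrank k A = n + 1) :
    ∃ e : Module.Basis (Option (Fin n)) k A, e none = 1 := by
  obtain ⟨N, hN⟩ := Submodule.exists_isCompl (Submodule.span k {(1 : A)})
  have h1 : Module.finrank k (Submodule.span k {(1 : A)}) = 1 :=
    finrank_span_singleton one_ne_zero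
  have h2 : Module.finrank k N = n := by
    have := Submodule.finrank_add_eq_of_isCompl hN
    omega
  let b : Module.Basis (Fin n) k N := Module.finBasisOfFinrankEq k N h2
  have hli : ∀ (c : k), ∀ x ∈ N, c • (1 : A) + x = 0 → c = 0 := by
    intro c x hx h0
    have hc : c • (1 : A) ∈ N := by
      have : c • (1 : A) = -x := eq_neg_of_add_eq_zero_left h0
      rw [this]; exact N.neg_mem hx
    have hc' : c • (1 : A) ∈ Submodule.span k {(1 : A)} :=
      Submodule.smul_mem _ _ (Submodule.mem_span_singleton_self _)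
    have h3 : c • (1 : A) ∈ Submodule.span k {(1 : A)} ⊓ N := ⟨hc', hc⟩
    rw [hN.inf_eq_bot, Submodule.mem_bot] at h3
    exact (smul_eq_zero.mp h3).resolve_right one_ne_zero
  have hsp : ∀ z : A, ∃ c : k, z + c • (1 : A) ∈ N := by
    intro z
    have hz : z ∈ Submodule.span k {(1 : A)} ⊔ N := by rw [hN.sup_eq_top]; trivial
    obtain ⟨y, hy, w, hw, rfl⟩ := Submodule.mem_sup.mp hz
    obtain ⟨c, rfl⟩ := Submodule.mem_span_singleton.mp hy
    exact ⟨-c, by rw [neg_smul, add_assoc, add_comm w, add_neg_cancel_left]; exact hw⟩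
  refine ⟨(Module.Basis.mkFinCons (1 : A) b hli hsp).reindex (finSuccEquiv n), ?_⟩
  rw [Module.Basis.reindex_apply, Module.Basis.coe_mkFinCons]
  simp

/-- B5: the finite projective dimensions of the modules of dimension `d` over the algebras of
dimension `n` (over all fields) are bounded. -/
theorem bounded (n d : ℕ) : ∃ m₀ : ℕ, ∀ (k A M : Type u) [Field k] [Ring A] [Algebra k A]
    [AddCommGroup M] [Module k M] [Module A M] [IsScalarTower k A M] [Module.Finite k A]
    [Module.Finite k M], Module.finrank k A = n → Module.finrank k M = d →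
    (∃ p, HasProjectiveDimensionLT (ModuleCat.of A M) p) →
    HasProjectiveDimensionLT (ModuleCat.of A M) (m₀ + 1) := by
  cases n with
  | zero =>
    refine ⟨0, ?_⟩
    intro k A M _ _ _ _ _ _ _ _ _ hA _ _
    have hsA : Subsingleton A := Module.finrank_zero_iff.mp hA
    have hsM : Subsingleton M := Module.subsingleton A M
    have hz : Limits.IsZero (ModuleCat.of A M) := ModuleCat.isZero_of_subsingleton _
    have := hz.hasProjectiveDimensionLT_zero
    exact hasProjectiveDimensionLT_of_ge _ 0 _ (by omega)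
  | succ n =>
    let σ := (Fin n × Fin n × Option (Fin n)) ⊕ (Fin n × Fin d × Fin d)
    obtain ⟨m₀, hm₀⟩ := bounded_family.{u} (σ := σ) (ι := Fin n) (β := Fin d)
      (fun i j o => MvPolynomial.X (Sum.inl (i, j, o)))
      (fun i b b' => MvPolynomial.X (Sum.inr (i, b, b')))
    refine ⟨m₀, ?_⟩
    intro k A M _ _ _ _ _ _ _ _ _ hA hM hp
    have hnt : Nontrivial A := by
      apply Module.nontrivial_of_finrank_pos (R := k)
      omega
    obtain ⟨e, he⟩ := exists_basis_one hA
    let v : Module.Basis (Fin d) k M := Module.finBasisOfFinrankEq k M hM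
    let φ : MvPolynomial σ ℤ →+* k := MvPolynomial.eval₂Hom (Int.castRingHom k)
      (Sum.elim (fun p => e.repr (e (some p.1) * e (some p.2.1)) p.2.2)
        (fun q => v.repr (e (some q.1) • v q.2.1) q.2.2))
    refine hm₀ k A M φ e v ⟨he, ?_, ?_⟩ hp
    · intro i j
      simp only [φ, MvPolynomial.coe_eval₂Hom, MvPolynomial.eval₂_X, Sum.elim_inl]
      exact (e.sum_repr _).symm
    · intro i b
      simp only [φ, MvPolynomial.coe_eval₂Hom, MvPolynomial.eval₂_X, Sum.elim_inr]
      exact (v.sum_repr _).symm

end Pool.Agent.Lib_helper54.GSC
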