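import Mathlib

open CategoryTheory MulOpposite

universe u

set_option linter.unusedSectionVars false

namespace Pool.Agent.Lib_helper54.GSC

section
variable {k : Type u} [Field k] {A B : Type u} [Ring A] [Algebra k A] [Ring B] [Algebra k B]

/-- The dual of a `B`-module, as a module over `A ≃ Bᵐᵒᵖ`. -/
@[nolint unusedArguments]
def D (_θ : A ≃ₐ[k] Bᵐᵒᵖ) (N : Type u) [AddCommGroup N] [Module k N] : Type u :=
  N →ₗ[k] k

variable (θ : A ≃ₐ[k] Bᵐᵒᵖ) (N : Type u) [AddCommGroup N] [Module k N] [Module B N]
  [IsScalarTower k B N]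

instance : AddCommGroup (D θ N) := inferInstanceAs (AddCommGroup (N →ₗ[k] k))
instance : Module k (D θ N) := inferInstanceAs (Module k (N →ₗ[k] k))
instance : FunLike (D θ N) N k := inferInstanceAs (FunLike (N →ₗ[k] k) N k)

theorem D_ext {θ : A ≃ₐ[k] Bᵐᵒᵖ} {N : Type u} [AddCommGroup N] [Module k N] {f g : D θ N}
    (h : ∀ n, f n = g n) : f = g := LinearMap.ext (f := (f : N →ₗ[k] k)) h

instance : SMul A (D θ N) :=
  ⟨fun a f => (show N →ₗ[k] k from f) ∘ₗ (Algebra.lsmul k k N (unop (θ a)))⟩

theorem D_smul (a : A) (f : D θ N) (n : N) : (a • f) n = f (unop (θ a) • n) := rfl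
theorem D_add (f g : D θ N) (n : N) : (f + g) n = f n + g n := rfl
theorem D_zero (n : N) : (0 : D θ N) n = 0 := rfl
theorem D_ksmul (t : k) (f : D θ N) (n : N) : (t • f) n = t * f n := rfl
theorem D_map_add (f : D θ N) (n n' : N) : f (n + n') = f n + f n' :=
  LinearMap.map_add (show N →ₗ[k] k from f) n n'
theorem D_map_smul (f : D θ N) (t : k) (n : N) : f (t • n) = t * f n :=
  LinearMap.map_smul (show N →ₗ[k] k from f) t n
theorem D_map_zero (f : D θ N) : f 0 = 0 := LinearMap.map_zero (show N →ₗ[k] k from f)

instance : Module A (D θ N) where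
  one_smul f := by apply D_ext; intro n; rw [D_smul, map_one, MulOpposite.unop_one, one_smul]
  mul_smul a b f := by
    apply D_ext; intro n
    rw [D_smul, D_smul, D_smul, map_mul, MulOpposite.unop_mul, mul_smul]
  smul_zero a := by apply D_ext; intro n; rfl
  smul_add a f g := by apply D_ext; intro n; rfl
  add_smul a b f := by
    apply D_ext; intro n
    rw [D_smul, D_add, D_smul, D_smul, map_add, MulOpposite.unop_add, add_smul, D_map_add]
  zero_smul f := by
    apply D_ext; intro n
    rw [D_smul, map_zero, MulOpposite.unop_zero, zero_smul, D_map_zero, D_zero]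

instance : IsScalarTower k A (D θ N) where
  smul_assoc t a f := by
    apply D_ext; intro n
    rw [D_smul, D_ksmul, D_smul, map_smul θ, MulOpposite.unop_smul, smul_assoc, D_map_smul]

instance [Module.Finite k N] : Module.Finite k (D θ N) :=
  inferInstanceAs (Module.Finite k (N →ₗ[k] k))

theorem finrank_D [Module.Finite k N] : Module.finrank k (D θ N) = Module.finrank k N :=
  Subspace.dual_finrank_eq (K := k) (V := N)

variable {N} {N' : Type u} [AddCommGroup N'] [Module k N'] [Module B N'] [IsScalarTower k B N']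
  {N'' : Type u} [AddCommGroup N''] [Module k N''] [Module B N''] [IsScalarTower k B N'']

/-- the dual of a linear map -/
def Dmap (g : N →ₗ[B] N') : D θ N' →ₗ[A] D θ N where
  toFun f := (show N' →ₗ[k] k from f) ∘ₗ (g.restrictScalars k)
  map_add' f f' := rfl
  map_smul' a f := by
    apply D_ext; intro n
    change f (unop (θ a) • g n) = f (g (unop (θ a) • n))
    rw [g.map_smul]

theorem Dmap_apply (g : N →ₗ[B] N') (f : D θ N') (n : N) : Dmap θ g f n = f (g n) := rfl

theorem Dmap_injective {g : N →ₗ[B] N'} (hg : Function.Surjective g) :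
    Function.Injective (Dmap θ g) := by
  intro f f' h
  apply D_ext
  intro n
  obtain ⟨m, rfl⟩ := hg n
  exact congrArg (fun z : D θ N => z m) h

theorem Dmap_surjective {g : N →ₗ[B] N'} (hg : Function.Injective g) :
    Function.Surjective (Dmap θ g) := by
  intro f
  obtain ⟨r, hr⟩ := LinearMap.exists_leftInverse_of_injective (g.restrictScalars k)
    (LinearMap.ker_eq_bot.mpr hg)
  refine ⟨(show N →ₗ[k] k from f) ∘ₗ r, ?_⟩
  apply D_ext
  intro n
  have : r (g n) = n := by simpa using congrFun (congrArg DFunLike.coe hr) n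
  change f (r (g n)) = f n
  rw [this]

theorem Dmap_exact {g : N →ₗ[B] N'} {g' : N' →ₗ[B] N''} (h : Function.Exact g g') :
    Function.Exact (Dmap θ g') (Dmap θ g) := by
  intro f
  constructor
  · intro hf
    -- f vanishes on range g = ker g'
    have h1 : LinearMap.ker (g'.restrictScalars k) ≤ LinearMap.ker (show N' →ₗ[k] k from f) := by
      intro x hx
      obtain ⟨y, rfl⟩ := (h x).mp hx
      exact congrArg (fun z : D θ N => z y) hf
    have h2 : (show N' →ₗ[k] k from f) ∈
        LinearMap.range (g'.restrictScalars k).dualMap := by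
      rw [LinearMap.range_dualMap_eq_dualAnnihilator_ker, Submodule.mem_dualAnnihilator]
      intro x hx
      exact h1 hx
    obtain ⟨F, hF⟩ := h2
    exact ⟨F, hF⟩
  · rintro ⟨F, rfl⟩
    apply D_ext
    intro n
    change F (g' (g n)) = 0
    rw [(h (g n)).mpr ⟨n, rfl⟩]
    exact D_map_zero θ N'' F

end
end Pool.Agent.Lib_helper54.GSC
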