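import Mathlib
import Pool.Agent.Lib_helper54.GSC.B6

open CategoryTheory MulOpposite

universe u

set_option linter.unusedSectionVars false

namespace Pool.Agent.Lib_helper54.GSC

section
variable {k : Type u} [Field k] {A B : Type u} [Ring A] [Algebra k A] [Ring B] [Algebra k B]
  (θ : A ≃ₐ[k] Bᵐᵒᵖ)

/-- The dual of a free module of finite rank is injective. -/
theorem D_free_injective (δ : Type) [Fintype δ] : Module.Injective A (D θ (δ → B)) := by
  classical
  refine ⟨fun X Y _ _ _ _ f hf g => ?_⟩
  let _ : Module k X := Module.compHom X (algebraMap k A)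
  let _ : Module k Y := Module.compHom Y (algebraMap k A)
  have : IsScalarTower k A X := IsScalarTower.of_algebraMap_smul fun _ _ => rfl
  have : IsScalarTower k A Y := IsScalarTower.of_algebraMap_smul fun _ _ => rfl
  obtain ⟨r, hr⟩ := LinearMap.exists_leftInverse_of_injective (f.restrictScalars k)
    (LinearMap.ker_eq_bot.mpr hf)
  have hr' : ∀ x, r (f x) = x := fun x => by
    simpa using congrFun (congrArg DFunLike.coe hr) x
  let gd : δ → X →ₗ[k] k := fun d =>
    { toFun := fun x => g x (Pi.single d 1)
      map_add' := fun x y => by rw [map_add]; rfl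
      map_smul' := fun t x => by
        have : g (t • x) = t • g x := by
          rw [← algebraMap_smul A t x, g.map_smul, algebraMap_smul]
        rw [this]; rfl }
  let hh : Y → ((δ → B) →ₗ[k] k) := fun y =>
    { toFun := fun F => ∑ d, gd d (r (θ.symm (op (F d)) • y))
      map_add' := fun F F' => by
        rw [← Finset.sum_add_distrib]
        refine Finset.sum_congr rfl fun d _ => ?_
        rw [Pi.add_apply, MulOpposite.op_add, map_add, add_smul, map_add, map_add]
      map_smul' := fun t F => by
        rw [RingHom.id_apply, Finset.smul_sum]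
        refine Finset.sum_congr rfl fun d _ => ?_
        rw [Pi.smul_apply, MulOpposite.op_smul, map_smul θ.symm, smul_assoc, r.map_smul,
          (gd d).map_smul] }
  let h : Y →ₗ[A] D θ (δ → B) :=
    { toFun := fun y => hh y
      map_add' := fun y y' => by
        apply D_ext
        intro F
        change ∑ d, gd d (r (θ.symm (op (F d)) • (y + y'))) =
          ∑ d, gd d (r (θ.symm (op (F d)) • y)) + ∑ d, gd d (r (θ.symm (op (F d)) • y'))
        rw [← Finset.sum_add_distrib]
        refine Finset.sum_congr rfl fun d _ => ?_
        rw [smul_add, map_add, map_add]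
      map_smul' := fun a y => by
        apply D_ext
        intro F
        change ∑ d, gd d (r (θ.symm (op (F d)) • (a • y))) =
          ∑ d, gd d (r (θ.symm (op ((unop (θ a) • F) d)) • y))
        refine Finset.sum_congr rfl fun d _ => ?_
        rw [← mul_smul, Pi.smul_apply, smul_eq_mul, MulOpposite.op_mul, MulOpposite.op_unop,
          map_mul, AlgEquiv.symm_apply_apply] }
  refine ⟨h, fun x => ?_⟩
  apply D_ext
  intro F
  change ∑ d, g (r (θ.symm (op (F d)) • f x)) (Pi.single d 1) = g x F
  have h1 : ∀ d, g (r (θ.symm (op (F d)) • f x)) (Pi.single d 1) = g x (Pi.single d (F d)) := by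
    intro d
    rw [← f.map_smul, hr', g.map_smul, D_smul, AlgEquiv.apply_symm_apply, MulOpposite.unop_op,
      ← Pi.single_smul, smul_eq_mul, mul_one]
  simp only [h1]
  have h2 : F = ∑ d, Pi.single d (F d) := (Finset.univ_sum_single F).symm
  conv_rhs => rw [h2]
  exact (map_sum (show (δ → B) →ₗ[k] k from g x) _ _).symm

variable {N : Type u} [AddCommGroup N] [Module k N] [Module B N] [IsScalarTower k B N]

/-- B6, base: a f.d. module is projective iff its dual is injective. -/
theorem projective_iff_D_injective [Module.Finite k B] [Module.Finite k N] {δ : Type} [Fintype δ]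
    (p : (δ → B) →ₗ[B] N) (hp : Function.Surjective p) :
    Module.Projective B N ↔ Module.Injective A (D θ N) := by
  constructor
  · intro hN
    obtain ⟨s, hs⟩ := Module.projective_lifting_property p LinearMap.id hp
    -- D N is a retract of D F
    have hF := D_free_injective θ δ
    refine ⟨fun X Y _ _ _ _ f hf g => ?_⟩
    obtain ⟨h, hh⟩ := hF.out f hf ((Dmap θ p) ∘ₗ g)
    refine ⟨(Dmap θ s) ∘ₗ h, fun x => ?_⟩
    rw [LinearMap.comp_apply, hh, LinearMap.comp_apply]
    apply D_ext
    intro n
    rw [Dmap_apply, Dmap_apply]
    congr 1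
    exact congrFun (congrArg DFunLike.coe hs) n
  · intro hI
    obtain ⟨r, hr⟩ := hI.out (Dmap θ p) (Dmap_injective θ hp) LinearMap.id
    -- dualise r
    let rk : ((δ → B) →ₗ[k] k) →ₗ[k] (N →ₗ[k] k) :=
      { toFun := fun f => r f
        map_add' := fun f f' => r.map_add f f'
        map_smul' := fun t f => by
          have : r (t • (show D θ (δ → B) from f)) = t • r f := by
            rw [← algebraMap_smul A t (show D θ (δ → B) from f), r.map_smul, algebraMap_smul]
          exact this }
    let ev := Module.evalEquiv k (δ → B)
    let s0 : N →ₗ[k] (δ → B) := ev.symm.toLinearMap ∘ₗ rk.dualMap ∘ₗ (Module.Dual.eval k N)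
    have hs0 : ∀ (n : N) (f : (δ → B) →ₗ[k] k), f (s0 n) = (r f) n := by
      intro n f
      have : Module.Dual.eval k (δ → B) (s0 n) = rk.dualMap (Module.Dual.eval k N n) := by
        change ev (ev.symm _) = _
        rw [LinearEquiv.apply_symm_apply]
        rfl
      exact congrFun (congrArg DFunLike.coe this) f
    have hsep : ∀ {V : Type u} [AddCommGroup V] [Module k V] (x y : V),
        (∀ f : V →ₗ[k] k, f x = f y) → x = y := by
      intro V _ _ x y hxy
      rw [← sub_eq_zero]
      refine (Module.forall_dual_apply_eq_zero_iff k (x - y)).mp fun f => ?_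
      rw [map_sub, hxy f, sub_self]
    let s : N →ₗ[B] (δ → B) :=
      { toFun := s0
        map_add' := s0.map_add
        map_smul' := fun b n => by
          apply hsep
          intro f
          rw [hs0, RingHom.id_apply]
          have h1 : (r f) (b • n) = (θ.symm (op b) • r f) n := by
            rw [D_smul, AlgEquiv.apply_symm_apply, MulOpposite.unop_op]
          have h2 : f (b • s0 n) = (θ.symm (op b) • (show D θ (δ → B) from f)) (s0 n) := by
            rw [D_smul, AlgEquiv.apply_symm_apply, MulOpposite.unop_op]
            rfl
          rw [h1, h2, ← r.map_smul]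
          exact (hs0 n _).symm }
    refine Module.Projective.of_split s p ?_
    ext n
    apply hsep
    intro f
    have h3 := hs0 n (f ∘ₗ (p.restrictScalars k))
    have h4 : r (f ∘ₗ (p.restrictScalars k)) = f := hr f
    rw [h4] at h3
    exact h3

end
end Pool.Agent.Lib_helper54.GSC
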