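import Mathlib
import Pool.Agent.Lib_helper54.GSC.B3
import Pool.Agent.Lib_helper54.GSC.B6b

open CategoryTheory MulOpposite

universe u

set_option linter.unusedSectionVars false

namespace Pool.Agent.Lib_helper54.GSC

theorem id_one_iff {A : Type u} [Ring A] {M : Type u} [AddCommGroup M] [Module A M] :
    HasInjectiveDimensionLT (ModuleCat.of A M) 1 ↔ Module.Injective A M := by
  rw [← injective_iff_hasInjectiveDimensionLT_one, Module.injective_iff_injective_object A M]

section
variable {k : Type u} [Field k] {A B : Type u} [Ring A] [Algebra k A] [Ring B] [Algebra k B]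
  (θ : A ≃ₐ[k] Bᵐᵒᵖ)

/-- B6: projective dimension of a module = injective dimension of its dual. -/
theorem pd_iff_id [Module.Finite k B] (n : ℕ) :
    ∀ (N : Type u) [AddCommGroup N] [Module k N] [Module B N] [IsScalarTower k B N]
    [Module.Finite k N], HasProjectiveDimensionLT (ModuleCat.of B N) (n + 1) ↔
      HasInjectiveDimensionLT (ModuleCat.of A (D θ N)) (n + 1) := by
  induction n with
  | zero =>
    intro N _ _ _ _ _
    let v := Module.finBasis k N
    rw [zero_add, pd_one_iff, id_one_iff]
    refine projective_iff_D_injective θ (Fintype.linearCombination B v) ?_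
    intro m
    have : m ∈ Submodule.span B (Set.range v) := by rw [span_eq_top v]; trivial
    obtain ⟨a, ha⟩ := (Submodule.mem_span_range_iff_exists_fun B).mp this
    exact ⟨a, by simpa [Fintype.linearCombination_apply] using ha⟩
  | succ n ih =>
    intro N _ _ _ _ _
    let v := Module.finBasis k N
    let p : (Fin (Module.finrank k N) → B) →ₗ[B] N := Fintype.linearCombination B v
    have hp : Function.Surjective p := by
      intro m
      have : m ∈ Submodule.span B (Set.range v) := by rw [span_eq_top v]; trivial
      obtain ⟨a, ha⟩ := (Submodule.mem_span_range_iff_exists_fun B).mp this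
      exact ⟨a, by simpa [p, Fintype.linearCombination_apply] using ha⟩
    have hfin : Module.Finite k (Ker B (v : Fin (Module.finrank k N) → N)) :=
      Module.Finite.of_injective
        ((Ker B (v : Fin (Module.finrank k N) → N)).subtype.restrictScalars k)
        (Ker B (v : Fin (Module.finrank k N) → N)).injective_subtype
    rw [pd_ker (span_eq_top v) n, ih]
    have hex : Function.Exact (Ker B (v : Fin (Module.finrank k N) → N)).subtype p := by
      rw [LinearMap.exact_iff]
      exact (Submodule.range_subtype _).symm
    have hex' := Dmap_exact θ hex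
    let S : ShortComplex (ModuleCat.{u} A) :=
      ModuleCat.shortComplexOfCompEqZero (Dmap θ p)
        (Dmap θ (Ker B (v : Fin (Module.finrank k N) → N)).subtype) hex'.linearMap_comp_eq_zero
    have hS : S.ShortExact := by
      refine ModuleCat.shortComplex_shortExact S hex' (Dmap_injective θ hp) ?_
      exact Dmap_surjective θ (Ker B (v : Fin (Module.finrank k N) → N)).injective_subtype
    have hI : Injective S.X₂ :=
      (Module.injective_iff_injective_object A (D θ (Fin (Module.finrank k N) → B))).mp
        (D_free_injective θ _)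
    exact hS.hasInjectiveDimensionLT_X₃_iff n hI

/-- the inverse anti-isomorphism -/
noncomputable def flat : B ≃ₐ[k] Aᵐᵒᵖ := (AlgEquiv.opComm θ).symm

theorem unop_flat (b : B) : unop (flat θ b) = θ.symm (op b) := rfl

/-- evaluation -/
noncomputable def evalD (M : Type u) [AddCommGroup M] [Module k M] (m : M) :
    D θ (D (flat θ) M) :=
  (show (M →ₗ[k] k) →ₗ[k] k from Module.Dual.eval k M m)

theorem evalD_apply (M : Type u) [AddCommGroup M] [Module k M] (m : M) (f : D (flat θ) M) :
    evalD θ M m f = f m := rfl

/-- the canonical map to the double dual -/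
noncomputable def evalA (M : Type u) [AddCommGroup M] [Module k M] [Module A M]
    [IsScalarTower k A M] : M →ₗ[A] D θ (D (flat θ) M) where
  toFun m := evalD θ M m
  map_add' m m' := by
    apply D_ext
    intro f
    exact D_map_add (flat θ) M f m m'
  map_smul' a m := by
    apply D_ext
    intro f
    change f (a • m) = f (unop (flat θ (unop (θ a))) • m)
    rw [unop_flat, MulOpposite.op_unop, AlgEquiv.symm_apply_apply]

/-- A f.d. module is isomorphic to its double dual. -/
noncomputable def doubleDual (M : Type u) [AddCommGroup M] [Module k M] [Module A M]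
    [IsScalarTower k A M] [Module.Finite k M] : M ≃ₗ[A] D θ (D (flat θ) M) :=
  LinearEquiv.ofBijective (evalA θ M) (Module.evalEquiv k M).bijective

theorem id_iff_pd [Module.Finite k B] (n : ℕ) (M : Type u) [AddCommGroup M] [Module k M]
    [Module A M] [IsScalarTower k A M] [Module.Finite k M] :
    HasInjectiveDimensionLT (ModuleCat.of A M) (n + 1) ↔
      HasProjectiveDimensionLT (ModuleCat.of B (D (flat θ) M)) (n + 1) := by
  rw [pd_iff_id θ n]
  exact ModuleCat.hasInjectiveDimensionLE_iff_of_linearEquiv
    (M := ModuleCat.of A M) (N := ModuleCat.of A (D θ (D (flat θ) M))) (doubleDual θ M) n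

theorem id_prod {A : Type u} [Ring A] {M N : Type u} [AddCommGroup M] [Module A M]
    [AddCommGroup N] [Module A N] (n : ℕ) (hM : HasInjectiveDimensionLT (ModuleCat.of A M) n)
    (hN : HasInjectiveDimensionLT (ModuleCat.of A N) n) :
    HasInjectiveDimensionLT (ModuleCat.of A (M × N)) n := by
  have hex : Function.Exact (LinearMap.inl A M N) (LinearMap.snd A M N) :=
    LinearMap.exact_iff.mpr (LinearMap.ker_snd A M N)
  let S : ShortComplex (ModuleCat.{u} A) :=
    ModuleCat.shortComplexOfCompEqZero (LinearMap.inl A M N) (LinearMap.snd A M N)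
      hex.linearMap_comp_eq_zero
  have hS : S.ShortExact :=
    ModuleCat.shortComplex_shortExact S hex LinearMap.inl_injective LinearMap.snd_surjective
  exact hS.hasInjectiveDimensionLT_X₂ n hM hN

theorem pd_prod {A : Type u} [Ring A] {M N : Type u} [AddCommGroup M] [Module A M]
    [AddCommGroup N] [Module A N] (n : ℕ) (hM : HasProjectiveDimensionLT (ModuleCat.of A M) n)
    (hN : HasProjectiveDimensionLT (ModuleCat.of A N) n) :
    HasProjectiveDimensionLT (ModuleCat.of A (M × N)) n := by
  have hex : Function.Exact (LinearMap.inl A M N) (LinearMap.snd A M N) :=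
    LinearMap.exact_iff.mpr (LinearMap.ker_snd A M N)
  let S : ShortComplex (ModuleCat.{u} A) :=
    ModuleCat.shortComplexOfCompEqZero (LinearMap.inl A M N) (LinearMap.snd A M N)
      hex.linearMap_comp_eq_zero
  have hS : S.ShortExact :=
    ModuleCat.shortComplex_shortExact S hex LinearMap.inl_injective LinearMap.snd_surjective
  exact hS.hasProjectiveDimensionLT_X₂ n hM hN

theorem id_of_equiv {A : Type u} [Ring A] {M N : Type u} [AddCommGroup M] [Module A M]
    [AddCommGroup N] [Module A N] (e : M ≃ₗ[A] N) (n : ℕ)
    (h : HasInjectiveDimensionLT (ModuleCat.of A M) n) :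
    HasInjectiveDimensionLT (ModuleCat.of A N) n :=
  hasInjectiveDimensionLT_of_iso e.toModuleIso n

theorem pd_of_equiv {A : Type u} [Ring A] {M N : Type u} [AddCommGroup M] [Module A M]
    [AddCommGroup N] [Module A N] (e : M ≃ₗ[A] N) (n : ℕ)
    (h : HasProjectiveDimensionLT (ModuleCat.of A M) n) :
    HasProjectiveDimensionLT (ModuleCat.of A N) n :=
  hasProjectiveDimensionLT_of_iso e.toModuleIso n

theorem id_pi {A : Type u} [Ring A] (n : ℕ) (s : ℕ) :
    ∀ (M : Fin s → Type u) [∀ i, AddCommGroup (M i)] [∀ i, Module A (M i)],
      (∀ i, HasInjectiveDimensionLT (ModuleCat.of A (M i)) n) →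
      HasInjectiveDimensionLT (ModuleCat.of A (∀ i, M i)) n := by
  induction s with
  | zero =>
    intro M _ _ _
    have hz : Limits.IsZero (ModuleCat.of A (∀ i, M i)) := by
      have : Subsingleton (∀ i, M i) := inferInstance
      exact ModuleCat.isZero_of_subsingleton _
    have := hz.hasInjectiveDimensionLT_zero
    exact hasInjectiveDimensionLT_of_ge _ 0 _ (by omega)
  | succ s ih =>
    intro M _ _ h
    exact id_of_equiv (Fin.consLinearEquiv A M) n
      (id_prod n (h 0) (ih (fun i => M i.succ) (fun i => h i.succ)))

theorem pd_pi {A : Type u} [Ring A] (n : ℕ) (s : ℕ) :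
    ∀ (M : Fin s → Type u) [∀ i, AddCommGroup (M i)] [∀ i, Module A (M i)],
      (∀ i, HasProjectiveDimensionLT (ModuleCat.of A (M i)) n) →
      HasProjectiveDimensionLT (ModuleCat.of A (∀ i, M i)) n := by
  induction s with
  | zero =>
    intro M _ _ _
    have hz : Limits.IsZero (ModuleCat.of A (∀ i, M i)) := by
      have : Subsingleton (∀ i, M i) := inferInstance
      exact ModuleCat.isZero_of_subsingleton _
    have := hz.hasProjectiveDimensionLT_zero
    exact hasProjectiveDimensionLT_of_ge _ 0 _ (by omega)
  | succ s ih =>
    intro M _ _ h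
    exact pd_of_equiv (Fin.consLinearEquiv A M) n
      (pd_prod n (h 0) (ih (fun i => M i.succ) (fun i => h i.succ)))

/-- f.d. projective modules have injective dimension at most that of the algebra. -/
theorem id_of_projective [Module.Finite k A] {n : ℕ}
    (hA : HasInjectiveDimensionLT (ModuleCat.of A A) n)
    (M : Type u) [AddCommGroup M] [Module k M] [Module A M] [IsScalarTower k A M]
    [Module.Finite k M] (hM : Module.Projective A M) :
    HasInjectiveDimensionLT (ModuleCat.of A M) n := by
  let v := Module.finBasis k M
  let p : (Fin (Module.finrank k M) → A) →ₗ[A] M := Fintype.linearCombination A v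
  have hp : Function.Surjective p := by
    intro m
    have : m ∈ Submodule.span A (Set.range v) := by rw [span_eq_top v]; trivial
    obtain ⟨a, ha⟩ := (Submodule.mem_span_range_iff_exists_fun A).mp this
    exact ⟨a, by simpa [p, Fintype.linearCombination_apply] using ha⟩
  obtain ⟨s, hs⟩ := Module.projective_lifting_property p LinearMap.id hp
  have hF : HasInjectiveDimensionLT (ModuleCat.of A (Fin (Module.finrank k M) → A)) n :=
    id_pi n _ _ (fun _ => hA)
  have hr : Retract (ModuleCat.of A M) (ModuleCat.of A (Fin (Module.finrank k M) → A)) :=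
    { i := ModuleCat.ofHom s
      r := ModuleCat.ofHom p
      retract := by
        rw [← ModuleCat.ofHom_comp, hs]
        rfl }
  exact hr.hasInjectiveDimensionLT n

/-- If `id A < n+1` on one side then the f.d. injective modules on the other side have
`pd < n+1`. -/
theorem pd_of_injective (θ : A ≃ₐ[k] Bᵐᵒᵖ) [Module.Finite k A] [Module.Finite k B] {n : ℕ}
    (hA : HasInjectiveDimensionLT (ModuleCat.of A A) (n + 1))
    (J : Type u) [AddCommGroup J] [Module k J] [Module B J] [IsScalarTower k B J]
    [Module.Finite k J] (hJ : Module.Injective B J) :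
    HasProjectiveDimensionLT (ModuleCat.of B J) (n + 1) := by
  -- the dual of `J` is projective
  have h1 : HasInjectiveDimensionLT (ModuleCat.of B (D (flat θ) (D θ J))) (0 + 1) := by
    have e : J ≃ₗ[B] D (flat θ) (D (flat (flat θ)) J) := doubleDual (flat θ) J
    have hf : flat (flat θ) = θ := by
      ext a; rfl
    rw [hf] at e
    refine id_of_equiv e 1 ?_
    exact id_one_iff.mpr hJ
  have h2 := (pd_iff_id (flat θ) 0 (D θ J)).mpr h1
  rw [zero_add, pd_one_iff] at h2
  have h3 := id_of_projective (k := k) hA (D θ J) h2
  have h4 := (id_iff_pd θ n (D θ J)).mp h3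
  have e : J ≃ₗ[B] D (flat θ) (D (flat (flat θ)) J) := doubleDual (flat θ) J
  have hf : flat (flat θ) = θ := by
    ext a; rfl
  rw [hf] at e
  exact pd_of_equiv e.symm (n + 1) h4

end
end Pool.Agent.Lib_helper54.GSC
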