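import Mathlib
import Pool.Agent.Lib_helper54.GSC.B5
import Pool.Agent.Lib_helper54.GSC.B6c
import Pool.Agent.Lib_helper21.GSC.B7

open CategoryTheory MulOpposite

universe u

set_option linter.unusedSectionVars false

namespace Pool.Agent.Lib_helper54.GSC

/-- `M` is the direct sum of finitely many submodules of dimension at most `d`. -/
def SumOfSmall (k R : Type u) [Field k] [Ring R] [Algebra k R] (d : ℕ) (M : Type u)
    [AddCommGroup M] [Module k M] [Module R M] [IsScalarTower k R M] : Prop :=
  ∃ (t : ℕ) (P : Fin t → Submodule R M), DirectSum.IsInternal P ∧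
    ∀ i, Module.finrank k (P i) ≤ d

/-- bound valid for all dimensions `≤ d` -/
theorem bounded_le (n d : ℕ) : ∃ m₀ : ℕ, ∀ (k A M : Type u) [Field k] [Ring A] [Algebra k A]
    [AddCommGroup M] [Module k M] [Module A M] [IsScalarTower k A M] [Module.Finite k A]
    [Module.Finite k M], Module.finrank k A = n → Module.finrank k M ≤ d →
    (∃ p, HasProjectiveDimensionLT (ModuleCat.of A M) p) →
    HasProjectiveDimensionLT (ModuleCat.of A M) (m₀ + 1) := by
  choose m hm using bounded.{u} n
  refine ⟨(Finset.range (d + 1)).sup m, ?_⟩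
  intro k A M _ _ _ _ _ _ _ _ _ hA hM hp
  have h1 := hm (Module.finrank k M) k A M hA rfl hp
  refine hasProjectiveDimensionLT_of_ge _ (m (Module.finrank k M) + 1) _ ?_
  have : m (Module.finrank k M) ≤ (Finset.range (d + 1)).sup m :=
    Finset.le_sup (Finset.mem_range.mpr (by omega))
  omega

theorem pd_of_sumOfSmall {k R : Type u} [Field k] [Ring R] [Algebra k R] {d : ℕ} {M : Type u}
    [AddCommGroup M] [Module k M] [Module R M] [IsScalarTower k R M] [Module.Finite k M]
    (h : SumOfSmall k R d M) {m₀ : ℕ}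
    (hm : ∀ (N : Type u) [AddCommGroup N] [Module k N] [Module R N] [IsScalarTower k R N]
      [Module.Finite k N], Module.finrank k N ≤ d →
      (∃ p, HasProjectiveDimensionLT (ModuleCat.of R N) p) →
      HasProjectiveDimensionLT (ModuleCat.of R N) m₀)
    (hp : ∃ p, HasProjectiveDimensionLT (ModuleCat.of R M) p) :
    HasProjectiveDimensionLT (ModuleCat.of R M) m₀ := by
  classical
  obtain ⟨t, P, hP, hd⟩ := h
  obtain ⟨p, hp⟩ := hp
  let e1 : (DirectSum (Fin t) fun i => P i) ≃ₗ[R] M :=
    LinearEquiv.ofBijective (DirectSum.coeLinearMap P) hP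
  let e2 : (DirectSum (Fin t) fun i => P i) ≃ₗ[R] (∀ i, P i) :=
    DirectSum.linearEquivFunOnFintype R (Fin t) (fun i => P i)
  let e : (∀ i, P i) ≃ₗ[R] M := e2.symm.trans e1
  have hpi : HasProjectiveDimensionLT (ModuleCat.of R (∀ i, P i)) p := pd_of_equiv e.symm p hp
  have hPi : ∀ i, HasProjectiveDimensionLT (ModuleCat.of R (P i)) m₀ := by
    intro i
    have hfin : Module.Finite k (P i) :=
      Module.Finite.of_injective ((P i).subtype.restrictScalars k) (P i).injective_subtype
    refine hm (P i) (hd i) ⟨p, ?_⟩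
    have hr : Retract (ModuleCat.of R (P i)) (ModuleCat.of R (∀ i, P i)) :=
      { i := ModuleCat.ofHom (LinearMap.single R (fun i => P i) i)
        r := ModuleCat.ofHom (LinearMap.proj i)
        retract := by
          rw [← ModuleCat.ofHom_comp, LinearMap.proj_comp_single_same]
          rfl }
    exact hr.hasProjectiveDimensionLT p
  exact pd_of_equiv e m₀ (pd_pi m₀ t (fun i => P i) hPi)

/-- B7: the growth theorem, for a pair of opposite algebras. -/
theorem growth (n d : ℕ) : ∃ m : ℕ, ∀ (k A B : Type u) [Field k] [Ring A] [Algebra k A]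
    [Ring B] [Algebra k B] [Module.Finite k A] [Module.Finite k B] (_θ : A ≃ₐ[k] Bᵐᵒᵖ),
    Module.finrank k B = n →
    (∃ p, HasInjectiveDimensionLT (ModuleCat.of A A) p) →
    ∀ (X J : ℕ → Type u) [∀ i, AddCommGroup (X i)] [∀ i, AddCommGroup (J i)]
      [∀ i, Module k (X i)] [∀ i, Module k (J i)] [∀ i, Module B (X i)] [∀ i, Module B (J i)]
      [∀ i, IsScalarTower k B (X i)] [∀ i, IsScalarTower k B (J i)]
      [∀ i, Module.Finite k (J i)]
      (f : ∀ i, X i →ₗ[B] J i) (g : ∀ i, J i →ₗ[B] X (i + 1)),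
      (∀ i, Function.Injective (f i)) → (∀ i, Function.Exact (f i) (g i)) →
      (∀ i, Function.Surjective (g i)) → (∀ i, Module.Injective B (J i)) →
      (∃ p, HasProjectiveDimensionLT (ModuleCat.of B (X 0)) p) →
      ∀ i, m ≤ i → SumOfSmall k B d (X i) →
        HasInjectiveDimensionLT (ModuleCat.of B (X 0)) i := by
  obtain ⟨m₀, hm₀⟩ := bounded_le.{u} n d
  refine ⟨m₀ + 1, ?_⟩
  intro k A B _ _ _ _ _ _ _ θ hB hA X J _ _ _ _ _ _ _ _ _ f g hf hex hg hJ hp i hi hs
  let R : Pool.Agent.Lib_helper21.GSC.Coresolution (C := ModuleCat.{u} B)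
      (fun i => ModuleCat.of B (X i)) (fun i => ModuleCat.of B (J i)) :=
    { f := fun i => ModuleCat.ofHom (f i)
      g := fun i => ModuleCat.ofHom (g i)
      w := fun i => by
        rw [← ModuleCat.ofHom_comp, (hex i).linearMap_comp_eq_zero]
        rfl
      exact := fun i => by
        refine ModuleCat.shortComplex_shortExact _ ?_ ?_ ?_
        · exact hex i
        · exact hf i
        · exact hg i
      inj := fun i => (Module.injective_iff_injective_object B (J i)).mp (hJ i) }
  have hJp : ∀ i, ∃ m, HasProjectiveDimensionLT (ModuleCat.of B (J i)) m := by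
    intro i
    obtain ⟨p, hp⟩ := hA
    have hp' : HasInjectiveDimensionLT (ModuleCat.of A A) (p + 1) :=
      hasInjectiveDimensionLT_of_ge _ p _ (by omega)
    exact ⟨p + 1, pd_of_injective θ hp' (J i) (hJ i)⟩
  have hX := Pool.Agent.Lib_helper21.GSC.cosyzygy_pd R hp hJp i
  have hfin : Module.Finite k (X i) :=
    Module.Finite.of_injective ((f i).restrictScalars k) (hf i)
  have h1 : HasProjectiveDimensionLT (ModuleCat.of B (X i)) (m₀ + 1) :=
    pd_of_sumOfSmall hs (fun N _ _ _ _ _ hN hNp => hm₀ k B N hB hN hNp) hX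
  obtain ⟨j, rfl⟩ : ∃ j, i = j + 1 := ⟨i - 1, by omega⟩
  refine Pool.Agent.Lib_helper21.GSC.id_lt_of_cosyzygy R j ?_
  exact hasProjectiveDimensionLT_of_ge _ (m₀ + 1) _ hi

end Pool.Agent.Lib_helper54.GSC
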