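import Mathlib
import Pool.Agent.Lib_helper54.GSC.B7b

open CategoryTheory MulOpposite

universe u

set_option linter.unusedSectionVars false

namespace Pool.Agent.Lib_helper54.GSC

theorem sumOfSmall_of_finrank_le {k R : Type u} [Field k] [Ring R] [Algebra k R] {d : ℕ}
    {M : Type u} [AddCommGroup M] [Module k M] [Module R M] [IsScalarTower k R M]
    [Module.Finite k M] (h : Module.finrank k M ≤ d) : SumOfSmall k R d M := by
  classical
  refine ⟨1, fun _ => ⊤, ?_, fun _ => ?_⟩
  · rw [DirectSum.isInternal_submodule_iff_iSupIndep_and_iSup_eq_top]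
    refine ⟨?_, by simp⟩
    intro i
    have : (⨆ j, ⨆ (_ : j ≠ i), (⊤ : Submodule R M)) = ⊥ := by
      rw [eq_bot_iff]
      refine iSup_le fun j => iSup_le fun hj => ?_
      exact absurd (Subsingleton.elim j i) hj
    rw [this]
    exact disjoint_bot_right
  · have e : (⊤ : Submodule R M) ≃ₗ[k] M := (Submodule.topEquiv (R := R) (M := M)).restrictScalars k
    rw [e.finrank_eq]
    exact h

/-- The growth theorem for the regular module: if `id (A as left module)` is finite and
`id (B as left module)` is infinite (`A ≃ Bᵐᵒᵖ`, of dimension `n`), then for `i ≥ m n d` the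
`i`-th cosyzygy of `B` is not a direct sum of modules of dimension at most `d`, and the `i`-th
injective has dimension larger than `d`. -/
theorem growth_regular (n d : ℕ) : ∃ m : ℕ, ∀ (k A B : Type u) [Field k] [Ring A] [Algebra k A]
    [Ring B] [Algebra k B] [Module.Finite k A] [Module.Finite k B] (_θ : A ≃ₐ[k] Bᵐᵒᵖ),
    Module.finrank k B = n →
    (∃ p, HasInjectiveDimensionLT (ModuleCat.of A A) p) →
    (¬ ∃ p, HasInjectiveDimensionLT (ModuleCat.of B B) p) →
    ∀ (X J : ℕ → Type u) [∀ i, AddCommGroup (X i)] [∀ i, AddCommGroup (J i)]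
      [∀ i, Module k (X i)] [∀ i, Module k (J i)] [∀ i, Module B (X i)] [∀ i, Module B (J i)]
      [∀ i, IsScalarTower k B (X i)] [∀ i, IsScalarTower k B (J i)]
      [∀ i, Module.Finite k (J i)]
      (f : ∀ i, X i →ₗ[B] J i) (g : ∀ i, J i →ₗ[B] X (i + 1)),
      (∀ i, Function.Injective (f i)) → (∀ i, Function.Exact (f i) (g i)) →
      (∀ i, Function.Surjective (g i)) → (∀ i, Module.Injective B (J i)) →
      Nonempty (X 0 ≃ₗ[B] B) →
      ∀ i, m ≤ i → ¬ SumOfSmall k B d (X i) ∧ d < Module.finrank k (J i) := by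
  obtain ⟨m, hm⟩ := growth.{u} n d
  refine ⟨m, ?_⟩
  intro k A B _ _ _ _ _ _ _ θ hB hA hBinf X J _ _ _ _ _ _ _ _ _ f g hf hex hg hJ ⟨e⟩ i hi
  have hp : ∃ p, HasProjectiveDimensionLT (ModuleCat.of B (X 0)) p := by
    refine ⟨1, pd_of_equiv e.symm 1 ?_⟩
    rw [pd_one_iff]
    infer_instance
  have key : ∀ i, m ≤ i → ¬ SumOfSmall k B d (X i) := by
    intro i hi hs
    exact hBinf ⟨i, id_of_equiv e i (hm k A B θ hB hA X J f g hf hex hg hJ hp i hi hs)⟩
  refine ⟨key i hi, ?_⟩
  by_contra hd
  push Not at hd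
  have hfin : Module.Finite k (X (i + 1)) :=
    Module.Finite.of_injective ((f (i + 1)).restrictScalars k) (hf (i + 1))
  refine key (i + 1) (by omega) (sumOfSmall_of_finrank_le ?_)
  refine le_trans ?_ hd
  exact LinearMap.finrank_le_finrank_of_surjective (f := (g i).restrictScalars k) (hg i)

end Pool.Agent.Lib_helper54.GSC
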