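import Mathlib

universe u

set_option linter.unusedSectionVars false

namespace Pool.Agent.Lib_helper54.GSC

theorem finrank_quot_le_of_rel {k : Type*} [Field k] {X Y : Type*} [AddCommGroup X]
    [Module k X] [Module.Finite k X] [AddCommGroup Y] [Module k Y] [Module.Finite k Y]
    (N : Submodule k X) (N' : Submodule k Y) (R : Submodule k (X × Y))
    (h1 : ∀ x, ∃ y, (x, y) ∈ R) (h2 : ∀ x y, (x, y) ∈ R → y ∈ N' → x ∈ N) :
    Module.finrank k (X ⧸ N) ≤ Module.finrank k (Y ⧸ N') := by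
  let a : R →ₗ[k] X ⧸ N := N.mkQ ∘ₗ LinearMap.fst k X Y ∘ₗ R.subtype
  let b : R →ₗ[k] Y ⧸ N' := N'.mkQ ∘ₗ LinearMap.snd k X Y ∘ₗ R.subtype
  have ha : Function.Surjective a := by
    intro z
    obtain ⟨x, rfl⟩ := N.mkQ_surjective z
    obtain ⟨y, hy⟩ := h1 x
    exact ⟨⟨(x, y), hy⟩, rfl⟩
  have hk : LinearMap.ker b ≤ LinearMap.ker a := by
    rintro ⟨⟨x, y⟩, hxy⟩ hb
    have hb' : N'.mkQ y = 0 := hb
    rw [Submodule.mkQ_apply, Submodule.Quotient.mk_eq_zero] at hb'
    change N.mkQ x = 0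
    rw [Submodule.mkQ_apply, Submodule.Quotient.mk_eq_zero]
    exact h2 x y hxy hb'
  have e1 := LinearMap.finrank_range_add_finrank_ker a
  have e2 := LinearMap.finrank_range_add_finrank_ker b
  have e3 := Submodule.finrank_mono hk
  have e4 : Module.finrank k (LinearMap.range a) = Module.finrank k (X ⧸ N) := by
    rw [LinearMap.range_eq_top.mpr ha, finrank_top]
  have e5 := Submodule.finrank_le (LinearMap.range b)
  omega

section
variable {k : Type u} [Field k] {B : Type u} [Ring B] [Algebra k B]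
variable {K K' P C C' J : Type u}
  [AddCommGroup K] [Module k K] [Module B K] [IsScalarTower k B K] [Module.Finite k K]
  [AddCommGroup K'] [Module k K'] [Module B K'] [IsScalarTower k B K'] [Module.Finite k K']
  [AddCommGroup P] [Module k P] [Module B P] [IsScalarTower k B P] [Module.Finite k P]
  [AddCommGroup C] [Module k C] [Module B C] [IsScalarTower k B C] [Module.Finite k C]
  [AddCommGroup C'] [Module k C'] [Module B C'] [IsScalarTower k B C'] [Module.Finite k C']
  [AddCommGroup J] [Module k J] [Module B J] [IsScalarTower k B J] [Module.Finite k J]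

instance finite_hom : Module.Finite k (K →ₗ[B] C) :=
  Module.Finite.of_injective
    ({ toFun := fun f => f.restrictScalars k
       map_add' := fun _ _ => rfl
       map_smul' := fun _ _ => rfl } : (K →ₗ[B] C) →ₗ[k] (K →ₗ[k] C))
    (fun f g h => by
      ext x
      exact congrFun (congrArg DFunLike.coe h) x)

/-- the maps `K → C'` that lift to `J` -/
def NJ (K : Type u) [AddCommGroup K] [Module B K] (g : J →ₗ[B] C') :
    Submodule k (K →ₗ[B] C') :=
  LinearMap.range (LinearMap.compRight k g : (K →ₗ[B] J) →ₗ[k] (K →ₗ[B] C'))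

theorem mem_NJ (g : J →ₗ[B] C') (φ : K →ₗ[B] C') :
    φ ∈ NJ (k := k) K g ↔ ∃ ψ : K →ₗ[B] J, g ∘ₗ ψ = φ := Iff.rfl

/-- the maps `K' → C` that extend to `P` -/
def NP (C : Type u) [AddCommGroup C] [Module k C] [Module B C] [IsScalarTower k B C]
    (ι : K' →ₗ[B] P) : Submodule k (K' →ₗ[B] C) where
  carrier := {φ | ∃ χ : P →ₗ[B] C, χ ∘ₗ ι = φ}
  add_mem' := by
    rintro a b ⟨x, rfl⟩ ⟨y, rfl⟩
    exact ⟨x + y, by rw [LinearMap.add_comp]⟩
  zero_mem' := ⟨0, by rw [LinearMap.zero_comp]⟩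
  smul_mem' := by
    rintro t a ⟨x, rfl⟩
    exact ⟨t • x, by ext; rfl⟩

theorem mem_NP (ι : K' →ₗ[B] P) (φ : K' →ₗ[B] C) :
    φ ∈ NP (k := k) C ι ↔ ∃ χ : P →ₗ[B] C, χ ∘ₗ ι = φ := Iff.rfl

/-- one step of the balancing -/
theorem step1 {ι : K' →ₗ[B] P} {π : P →ₗ[B] K} (hex : Function.Exact ι π)
    (hπ : Function.Surjective π) (hP : Module.Projective B P)
    {f : C →ₗ[B] J} {g : J →ₗ[B] C'} (hf : Function.Injective f) (hex' : Function.Exact f g)
    (hg : Function.Surjective g) :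
    Module.finrank k ((K →ₗ[B] C') ⧸ NJ (k := k) K g) ≤
      Module.finrank k ((K' →ₗ[B] C) ⧸ NP (k := k) C ι) := by
  let R : Submodule k ((K →ₗ[B] C') × (K' →ₗ[B] C)) :=
    { carrier := {z | ∃ ψ : P →ₗ[B] J, g ∘ₗ ψ = z.1 ∘ₗ π ∧ f ∘ₗ z.2 = ψ ∘ₗ ι}
      add_mem' := by
        rintro a b ⟨x, hx1, hx2⟩ ⟨y, hy1, hy2⟩
        refine ⟨x + y, ?_, ?_⟩
        · rw [LinearMap.comp_add, hx1, hy1]; rfl
        · rw [LinearMap.add_comp, ← hx2, ← hy2, ← LinearMap.comp_add]; rfl
      zero_mem' := ⟨0, by simp, by simp⟩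
      smul_mem' := by
        rintro t a ⟨x, hx1, hx2⟩
        refine ⟨t • x, ?_, ?_⟩
        · have : g ∘ₗ (t • x) = t • (g ∘ₗ x) := by
            ext z
            simp only [LinearMap.comp_apply, LinearMap.smul_apply]
            exact (g.restrictScalars k).map_smul t (x z)
          rw [this, hx1]
          ext z
          rfl
        · have : f ∘ₗ (t • a).2 = t • (f ∘ₗ a.2) := by
            ext z
            simp only [LinearMap.comp_apply, Prod.smul_snd, LinearMap.smul_apply]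
            exact (f.restrictScalars k).map_smul t (a.2 z)
          rw [this, hx2]
          ext z
          rfl }
  refine finrank_quot_le_of_rel _ _ R ?_ ?_
  · intro φ
    obtain ⟨ψ, hψ⟩ := Module.projective_lifting_property g (φ ∘ₗ π) hg
    have hker : ∀ x, ψ (ι x) ∈ LinearMap.range f := by
      intro x
      have h1 : g (ψ (ι x)) = 0 := by
        have := congrFun (congrArg DFunLike.coe hψ) (ι x)
        simp only [LinearMap.comp_apply] at this
        rw [this, (hex (ι x)).mpr ⟨x, rfl⟩, map_zero]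
      exact (hex' _).mp h1
    let e := LinearEquiv.ofInjective f hf
    let φ' : K' →ₗ[B] C := e.symm.toLinearMap ∘ₗ
      LinearMap.codRestrict (LinearMap.range f) (ψ ∘ₗ ι) hker
    refine ⟨φ', ψ, hψ, ?_⟩
    ext x
    have : (e (φ' x) : J) = f (φ' x) := rfl
    simp only [LinearMap.comp_apply]
    rw [← this]
    simp [φ', LinearMap.comp_apply]
  · rintro φ φ' ⟨ψ, hψ1, hψ2⟩ ⟨χ, hχ⟩
    -- ψ - f χ vanishes on K'
    have hv : LinearMap.ker π ≤ LinearMap.ker (ψ - f ∘ₗ χ) := by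
      intro z hz
      obtain ⟨x, rfl⟩ := (hex z).mp hz
      have h1 : f (φ' x) = ψ (ι x) := congrFun (congrArg DFunLike.coe hψ2) x
      have h2 : χ (ι x) = φ' x := congrFun (congrArg DFunLike.coe hχ) x
      change ψ (ι x) - f (χ (ι x)) = 0
      rw [h2, h1, sub_self]
    obtain ⟨θ, hθ⟩ : ∃ θ : K →ₗ[B] J, θ ∘ₗ π = ψ - f ∘ₗ χ := by
      let q := π.quotKerEquivOfSurjective hπ
      refine ⟨(Submodule.liftQ (LinearMap.ker π) (ψ - f ∘ₗ χ) hv) ∘ₗ q.symm.toLinearMap, ?_⟩
      ext z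
      have : q.symm (π z) = Submodule.Quotient.mk z := by
        rw [LinearEquiv.symm_apply_eq]
        rfl
      simp only [LinearMap.comp_apply, LinearEquiv.coe_coe, this, Submodule.liftQ_apply]
    refine ⟨θ, ?_⟩
    change g ∘ₗ θ = φ
    ext y
    obtain ⟨z, rfl⟩ := hπ y
    have h3 : θ (π z) = ψ z - f (χ z) := congrFun (congrArg DFunLike.coe hθ) z
    have h4 : g (ψ z) = φ (π z) := congrFun (congrArg DFunLike.coe hψ1) z
    have h5 : g (f (χ z)) = 0 := (hex' _).mpr ⟨_, rfl⟩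
    rw [LinearMap.comp_apply, h3, map_sub, h4, h5, sub_zero]

/-- maps to `C'` that lift to the injective `J` extend along `ι` -/
theorem NJ_le_NP {ι : K' →ₗ[B] P} (hι : Function.Injective ι) {g : J →ₗ[B] C'}
    (hJ : Module.Injective B J) : NJ (k := k) K' g ≤ NP (k := k) C' ι := by
  rintro φ ⟨ψ, rfl⟩
  obtain ⟨h, hh⟩ := hJ.out ι hι ψ
  refine ⟨g ∘ₗ h, ?_⟩
  ext x
  simp only [LinearMap.comp_apply, hh]
  rfl

theorem finrank_quot_anti {k : Type*} [Field k] {Y : Type*} [AddCommGroup Y] [Module k Y]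
    [Module.Finite k Y] {N N' : Submodule k Y} (h : N ≤ N') :
    Module.finrank k (Y ⧸ N') ≤ Module.finrank k (Y ⧸ N) := by
  have h1 := Submodule.finrank_quotient_add_finrank N
  have h2 := Submodule.finrank_quotient_add_finrank N'
  have h3 := Submodule.finrank_mono h
  omega

end

/-- H3: balancing. -/
theorem balance {k : Type u} [Field k] {B : Type u} [Ring B] [Algebra k B]
    (K P : ℕ → Type u) [∀ i, AddCommGroup (K i)] [∀ i, Module k (K i)] [∀ i, Module B (K i)]
    [∀ i, IsScalarTower k B (K i)] [∀ i, Module.Finite k (K i)]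
    [∀ i, AddCommGroup (P i)] [∀ i, Module k (P i)] [∀ i, Module B (P i)]
    [∀ i, IsScalarTower k B (P i)] [∀ i, Module.Finite k (P i)]
    (ι : ∀ i, K (i + 1) →ₗ[B] P i) (π : ∀ i, P i →ₗ[B] K i)
    (hι : ∀ i, Function.Injective (ι i)) (hex : ∀ i, Function.Exact (ι i) (π i))
    (hπ : ∀ i, Function.Surjective (π i)) (hP : ∀ i, Module.Projective B (P i))
    (X J : ℕ → Type u) [∀ i, AddCommGroup (X i)] [∀ i, Module k (X i)] [∀ i, Module B (X i)]
    [∀ i, IsScalarTower k B (X i)] [∀ i, Module.Finite k (X i)]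
    [∀ i, AddCommGroup (J i)] [∀ i, Module k (J i)] [∀ i, Module B (J i)]
    [∀ i, IsScalarTower k B (J i)] [∀ i, Module.Finite k (J i)]
    (f : ∀ i, X i →ₗ[B] J i) (g : ∀ i, J i →ₗ[B] X (i + 1))
    (hf : ∀ i, Function.Injective (f i)) (hex' : ∀ i, Function.Exact (f i) (g i))
    (hg : ∀ i, Function.Surjective (g i)) (hJ : ∀ i, Module.Injective B (J i)) (l : ℕ) :
    ∀ j, Module.finrank k ((K j →ₗ[B] X (l + 1)) ⧸ NJ (k := k) (K j) (g l)) ≤
      Module.finrank k (K (j + l + 1) →ₗ[B] X 0) := by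
  induction l with
  | zero =>
    intro j
    refine le_trans (step1 (hex j) (hπ j) (hP j) (hf 0) (hex' 0) (hg 0)) ?_
    exact Submodule.finrank_quotient_le _
  | succ l ih =>
    intro j
    refine le_trans (step1 (hex j) (hπ j) (hP j) (hf (l + 1)) (hex' (l + 1)) (hg (l + 1))) ?_
    refine le_trans (finrank_quot_anti (NJ_le_NP (g := g l) (hι j) (hJ l))) ?_
    have := ih (j + 1)
    have e : j + 1 + l + 1 = j + (l + 1) + 1 := by ring
    rw [e] at this
    exact this

end Pool.Agent.Lib_helper54.GSC
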