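import Mathlib
import Pool.Agent.Lib_helper54.GSC.H3

universe u

set_option linter.unusedSectionVars false

namespace Pool.Agent.Lib_helper54.GSC

section
variable {B : Type u} [Ring B]

/-- the elements killed by the radical -/
def soc (B : Type u) [Ring B] (M : Type u) [AddCommGroup M] [Module B M] : Submodule B M where
  carrier := {m | ∀ x ∈ Ring.jacobson B, x • m = 0}
  add_mem' := by
    intro a b ha hb x hx
    rw [smul_add, ha x hx, hb x hx, add_zero]
  zero_mem' := by intro x _; exact smul_zero x
  smul_mem' := by
    intro b m hm x hx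
    rw [← mul_smul]
    exact hm _ (Ideal.mul_mem_right b _ hx)

theorem mem_soc {M : Type u} [AddCommGroup M] [Module B M] {m : M} :
    m ∈ soc B M ↔ ∀ x ∈ Ring.jacobson B, x • m = 0 := Iff.rfl

theorem semisimple_top [IsArtinianRing B] : IsSemisimpleModule B (B ⧸ Ring.jacobson B) := by
  let l : (B ⧸ Ring.jacobson B) →ₛₗ[Ideal.Quotient.mk (Ring.jacobson B)]
      (B ⧸ Ring.jacobson B) :=
    { toFun := fun x => x
      map_add' := fun _ _ => rfl
      map_smul' := fun b x => by
        obtain ⟨y, rfl⟩ := Ideal.Quotient.mk_surjective x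
        rfl }
  have hs : RingHomSurjective (Ideal.Quotient.mk (Ring.jacobson B)) :=
    ⟨Ideal.Quotient.mk_surjective⟩
  rw [LinearMap.isSemisimpleModule_iff_of_bijective l Function.bijective_id]
  infer_instance

/-- every nonzero submodule meets the socle -/
theorem exists_mem_soc [IsArtinianRing B] {M : Type u} [AddCommGroup M] [Module B M]
    (K : Submodule B M) (hK : K ≠ ⊥) : ∃ z ∈ K, z ≠ 0 ∧ z ∈ soc B M := by
  obtain ⟨n, hn⟩ := (IsSemiprimaryRing.isNilpotent : IsNilpotent (Ring.jacobson B))
  have key : ∀ n : ℕ, ∀ m ∈ K, m ≠ 0 → (∀ x ∈ (Ring.jacobson B) ^ n, x • m = 0) →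
      ∃ z ∈ K, z ≠ 0 ∧ z ∈ soc B M := by
    intro n
    induction n with
    | zero =>
      intro m _ hm0 h
      have h1 := h 1 (by rw [Submodule.pow_zero, Ideal.one_eq_top]; trivial)
      rw [one_smul] at h1
      exact absurd h1 hm0
    | succ n ih =>
      intro m hm hm0 h
      by_cases hall : ∀ x ∈ Ring.jacobson B, x • m = 0
      · exact ⟨m, hm, hm0, hall⟩
      · push Not at hall
        obtain ⟨x, hx, hxm⟩ := hall
        refine ih (x • m) (K.smul_mem x hm) hxm ?_
        intro y hy
        rw [← mul_smul]
        refine h _ ?_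
        rw [Submodule.pow_succ]
        exact Submodule.mul_mem_mul hy hx
  obtain ⟨m, hm, hm0⟩ := K.exists_mem_ne_zero_of_ne_bot hK
  refine key n m hm hm0 ?_
  intro x hx
  rw [hn] at hx
  have : x = 0 := by simpa using hx
  rw [this, zero_smul]

/-- H4d: in an essential extension the socle is contained in the smaller module. -/
theorem soc_le_of_essential [IsArtinianRing B] {M J : Type u} [AddCommGroup M] [Module B M]
    [AddCommGroup J] [Module B J] (f : M →ₗ[B] J)
    (hess : ∀ S : Submodule B J, S ≠ ⊥ → S ⊓ LinearMap.range f ≠ ⊥) :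
    soc B J ≤ LinearMap.range f := by
  intro m hm
  -- the map `B ⧸ r → J`, `1 ↦ m`
  let φ : (B ⧸ Ring.jacobson B) →ₗ[B] J :=
    Submodule.liftQ (Ring.jacobson B) (LinearMap.toSpanSingleton B J m) (by
      intro x hx
      exact hm x hx)
  have hφ1 : φ (Submodule.Quotient.mk 1) = m := by
    change (1 : B) • m = m
    rw [one_smul]
  have hss : IsSemisimpleModule B (LinearMap.range φ) := by
    have := semisimple_top (B := B)
    exact IsSemisimpleModule.of_surjective φ.rangeRestrict φ.surjective_rangeRestrict
  have hcl : ComplementedLattice (Submodule B (LinearMap.range φ)) :=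
    (isSemisimpleModule_iff B _).mp hss
  obtain ⟨Q, hQ⟩ := hcl.exists_isCompl ((LinearMap.range f).comap (LinearMap.range φ).subtype)
  have hQ0 : Q.map (LinearMap.range φ).subtype = ⊥ := by
    by_contra hne
    refine hess _ hne ?_
    rw [eq_bot_iff]
    rintro z ⟨⟨q, hq, rfl⟩, hz⟩
    have h1 : q ∈ (LinearMap.range f).comap (LinearMap.range φ).subtype ⊓ Q := ⟨hz, hq⟩
    rw [hQ.inf_eq_bot] at h1
    have : q = 0 := by simpa using h1
    rw [this]
    simp
  have hQbot : Q = ⊥ :=
    Submodule.map_injective_of_injective (LinearMap.range φ).injective_subtype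
      (by rw [hQ0, Submodule.map_bot])
  have htop : (LinearMap.range f).comap (LinearMap.range φ).subtype = ⊤ := by
    have := hQ.sup_eq_top
    rwa [hQbot, sup_bot_eq] at this
  have hmem : (⟨m, ⟨_, hφ1⟩⟩ : LinearMap.range φ) ∈
      (LinearMap.range f).comap (LinearMap.range φ).subtype := by
    rw [htop]; trivial
  exact hmem

end

section
variable {k : Type u} [Field k] {B : Type u} [Ring B] [Algebra k B] [Module.Finite k B]

/-- H4b: the dimension is bounded by that of the socle. -/
theorem finrank_le_soc {M : Type u} [AddCommGroup M] [Module k M] [Module B M]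
    [IsScalarTower k B M] [Module.Finite k M] :
    Module.finrank k M ≤ Module.finrank k B * Module.finrank k (soc B M) := by
  have : IsArtinianRing B := IsArtinianRing.of_finite k B
  obtain ⟨ρ, hρ⟩ := LinearMap.exists_leftInverse_of_injective
    ((soc B M).subtype.restrictScalars k)
    (LinearMap.ker_eq_bot.mpr (soc B M).injective_subtype)
  have hfs : Module.Finite k (soc B M) :=
    Module.Finite.of_injective ((soc B M).subtype.restrictScalars k)
      (soc B M).injective_subtype
  let F : M →ₗ[k] (B →ₗ[k] soc B M) :=
    { toFun := fun m => ρ ∘ₗ ((Algebra.lsmul k k M).toLinearMap.flip m)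
      map_add' := fun m m' => by ext b; simp
      map_smul' := fun t m => by ext b; simp }
  have hF : Function.Injective F := by
    rw [injective_iff_map_eq_zero]
    intro m hm
    let K : Submodule B M :=
      { carrier := {m | ∀ b : B, ρ (b • m) = 0}
        add_mem' := by
          intro x y hx hy b
          rw [smul_add, map_add, hx b, hy b, add_zero]
        zero_mem' := by intro b; rw [smul_zero, map_zero]
        smul_mem' := by
          intro c x hx b
          rw [← mul_smul]
          exact hx _ }
    by_contra hm0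
    have hmK : m ∈ K := fun b => by
      have := congrFun (congrArg DFunLike.coe hm) b
      simpa [F] using this
    have hK : K ≠ ⊥ := by
      intro h
      rw [h] at hmK
      exact hm0 (by simpa using hmK)
    obtain ⟨z, hz, hz0, hzs⟩ := exists_mem_soc K hK
    have h1 := hz 1
    rw [one_smul] at h1
    have h2 : ρ z = ⟨z, hzs⟩ :=
      congrFun (congrArg DFunLike.coe hρ) (⟨z, hzs⟩ : soc B M)
    rw [h2] at h1
    exact hz0 (congrArg Subtype.val h1)
  have := LinearMap.finrank_le_finrank_of_injective hF
  rwa [Module.finrank_linearMap] at this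

/-- H4a -/
theorem finrank_soc_le {M : Type u} [AddCommGroup M] [Module k M] [Module B M]
    [IsScalarTower k B M] [Module.Finite k M] :
    Module.finrank k (soc B M) ≤ Module.finrank k ((B ⧸ Ring.jacobson B) →ₗ[B] M) := by
  have hfin : Module.Finite k (B ⧸ Ring.jacobson B) :=
    Module.Finite.of_surjective ((Ring.jacobson B).mkQ.restrictScalars k)
      (Submodule.mkQ_surjective _)
  let F : soc B M →ₗ[k] ((B ⧸ Ring.jacobson B) →ₗ[B] M) :=
    { toFun := fun m => Submodule.liftQ (Ring.jacobson B)
        (LinearMap.toSpanSingleton B M (m : M)) (by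
          intro x hx
          exact m.2 x hx)
      map_add' := fun m m' => by
        apply LinearMap.ext
        intro z
        obtain ⟨b, rfl⟩ := Submodule.mkQ_surjective _ z
        exact smul_add b (m : M) (m' : M)
      map_smul' := fun t m => by
        apply LinearMap.ext
        intro z
        obtain ⟨b, rfl⟩ := Submodule.mkQ_surjective _ z
        exact smul_comm b t (m : M) }
  have hF : Function.Injective F := by
    intro m m' h
    apply Subtype.ext
    have h1 : (1 : B) • (m : M) = (1 : B) • (m' : M) :=
      congrFun (congrArg DFunLike.coe h) (Submodule.Quotient.mk 1)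
    rwa [one_smul, one_smul] at h1
  exact LinearMap.finrank_le_finrank_of_injective hF

/-- lifting maps from the top vanish in `C'` for essential extensions -/
theorem NJ_eq_bot {C J C' : Type u} [AddCommGroup C] [Module k C] [Module B C]
    [IsScalarTower k B C] [AddCommGroup J] [Module k J] [Module B J] [IsScalarTower k B J]
    [AddCommGroup C'] [Module k C'] [Module B C'] [IsScalarTower k B C']
    (f : C →ₗ[B] J) (g : J →ₗ[B] C') (hex : Function.Exact f g)
    (hess : ∀ S : Submodule B J, S ≠ ⊥ → S ⊓ LinearMap.range f ≠ ⊥) :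
    NJ (k := k) (B ⧸ Ring.jacobson B) g = ⊥ := by
  have : IsArtinianRing B := IsArtinianRing.of_finite k B
  rw [eq_bot_iff]
  rintro φ ⟨ψ, rfl⟩
  have h1 : ∀ z, ψ z ∈ soc B J := by
    intro z
    obtain ⟨b, rfl⟩ := Submodule.mkQ_surjective _ z
    intro x hx
    rw [← map_smul]
    have : x • (Ring.jacobson B).mkQ b = 0 := by
      rw [← map_smul, Submodule.mkQ_apply, Submodule.Quotient.mk_eq_zero]
      exact Ideal.mul_mem_right b _ hx
    rw [this, map_zero]
  rw [Submodule.mem_bot]
  ext z
  exact (hex _).mpr (soc_le_of_essential f hess (h1 _))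

end
end Pool.Agent.Lib_helper54.GSC
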