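import Mathlib
import Pool.Agent.Lib_helper54.GSC.H4

universe u

set_option linter.unusedSectionVars false

namespace Pool.Agent.Lib_helper54.GSC

theorem finrank_hom_le {k : Type u} [Field k] {B : Type u} [Ring B] [Algebra k B]
    {K C : Type u} [AddCommGroup K] [Module k K] [Module B K] [IsScalarTower k B K]
    [Module.Finite k K] [AddCommGroup C] [Module k C] [Module B C] [IsScalarTower k B C]
    [Module.Finite k C] :
    Module.finrank k (K →ₗ[B] C) ≤ Module.finrank k K * Module.finrank k C := by
  have h : Module.finrank k (K →ₗ[B] C) ≤ Module.finrank k (K →ₗ[k] C) :=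
    LinearMap.finrank_le_finrank_of_injective
      (f := ({ toFun := fun f => f.restrictScalars k
               map_add' := fun _ _ => rfl
               map_smul' := fun _ _ => rfl } : (K →ₗ[B] C) →ₗ[k] (K →ₗ[k] C)))
      (fun f g h => by
        ext x
        exact congrFun (congrArg DFunLike.coe h) x)
  have h' := Module.finrank_linearMap k k K C
  rwa [h'] at h

theorem finrank_hom_congr {k : Type u} [Field k] {B : Type u} [Ring B] [Algebra k B]
    {K K' C : Type u} [AddCommGroup K] [Module k K] [Module B K] [IsScalarTower k B K]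
    [Module.Finite k K] [AddCommGroup K'] [Module k K'] [Module B K'] [IsScalarTower k B K']
    [Module.Finite k K'] [AddCommGroup C] [Module k C] [Module B C] [IsScalarTower k B C]
    [Module.Finite k C] (e : K →ₗ[B] K') (he : Function.Surjective e) :
    Module.finrank k (K' →ₗ[B] C) ≤ Module.finrank k (K →ₗ[B] C) :=
  LinearMap.finrank_le_finrank_of_injective
    (f := ({ toFun := fun f => f ∘ₗ e
             map_add' := fun _ _ => rfl
             map_smul' := fun _ _ => rfl } : (K' →ₗ[B] C) →ₗ[k] (K →ₗ[B] C)))
    (fun f g h => by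
      ext x
      obtain ⟨y, rfl⟩ := he x
      exact congrFun (congrArg DFunLike.coe h) y)

/-- H6: the terms of the essential coresolution of `X 0` are bounded by the syzygies of the
top. -/
theorem finrank_J_le {k : Type u} [Field k] {B : Type u} [Ring B] [Algebra k B]
    [Module.Finite k B]
    (K P : ℕ → Type u) [∀ i, AddCommGroup (K i)] [∀ i, Module k (K i)] [∀ i, Module B (K i)]
    [∀ i, IsScalarTower k B (K i)] [∀ i, Module.Finite k (K i)]
    [∀ i, AddCommGroup (P i)] [∀ i, Module k (P i)] [∀ i, Module B (P i)]
    [∀ i, IsScalarTower k B (P i)] [∀ i, Module.Finite k (P i)]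
    (ι : ∀ i, K (i + 1) →ₗ[B] P i) (π : ∀ i, P i →ₗ[B] K i)
    (hι : ∀ i, Function.Injective (ι i)) (hex : ∀ i, Function.Exact (ι i) (π i))
    (hπ : ∀ i, Function.Surjective (π i)) (hP : ∀ i, Module.Projective B (P i))
    (e : K 0 ≃ₗ[B] (B ⧸ Ring.jacobson B))
    (X J : ℕ → Type u) [∀ i, AddCommGroup (X i)] [∀ i, Module k (X i)] [∀ i, Module B (X i)]
    [∀ i, IsScalarTower k B (X i)] [∀ i, Module.Finite k (X i)]
    [∀ i, AddCommGroup (J i)] [∀ i, Module k (J i)] [∀ i, Module B (J i)]
    [∀ i, IsScalarTower k B (J i)] [∀ i, Module.Finite k (J i)]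
    (f : ∀ i, X i →ₗ[B] J i) (g : ∀ i, J i →ₗ[B] X (i + 1))
    (hf : ∀ i, Function.Injective (f i)) (hex' : ∀ i, Function.Exact (f i) (g i))
    (hg : ∀ i, Function.Surjective (g i)) (hJ : ∀ i, Module.Injective B (J i))
    (hess : ∀ i, ∀ S : Submodule B (J i), S ≠ ⊥ → S ⊓ LinearMap.range (f i) ≠ ⊥) (i : ℕ) :
    Module.finrank k (J i) ≤
      Module.finrank k B * (Module.finrank k (K i) * Module.finrank k (X 0)) := by
  have hart : IsArtinianRing B := IsArtinianRing.of_finite k B
  have hfT : Module.Finite k (B ⧸ Ring.jacobson B) :=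
    Module.Finite.of_surjective ((Ring.jacobson B).mkQ.restrictScalars k)
      (Submodule.mkQ_surjective _)
  -- socles
  have h1 : Module.finrank k (J i) ≤ Module.finrank k B * Module.finrank k (soc B (J i)) :=
    finrank_le_soc
  have hfs : Module.Finite k (soc B (X i)) :=
    Module.Finite.of_injective ((soc B (X i)).subtype.restrictScalars k)
      (soc B (X i)).injective_subtype
  have h2 : Module.finrank k (soc B (J i)) ≤ Module.finrank k (soc B (X i)) := by
    let F : soc B (X i) →ₗ[k] soc B (J i) :=
      { toFun := fun m => ⟨f i m, fun x hx => by rw [← map_smul, m.2 x hx, map_zero]⟩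
        map_add' := fun a b => by
          apply Subtype.ext
          exact (f i).map_add a b
        map_smul' := fun t a => by
          apply Subtype.ext
          exact ((f i).restrictScalars k).map_smul t a }
    have hF : Function.Surjective F := by
      rintro ⟨m, hm⟩
      obtain ⟨a, rfl⟩ := soc_le_of_essential (f i) (hess i) hm
      have ha : a ∈ soc B (X i) := by
        intro x hx
        apply hf i
        rw [map_smul, map_zero]
        exact hm x hx
      exact ⟨⟨a, ha⟩, rfl⟩
    exact LinearMap.finrank_le_finrank_of_surjective hF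
  have h3 : Module.finrank k (soc B (X i)) ≤
      Module.finrank k ((B ⧸ Ring.jacobson B) →ₗ[B] X i) := finrank_soc_le
  have h4 : Module.finrank k ((B ⧸ Ring.jacobson B) →ₗ[B] X i) ≤
      Module.finrank k (K 0 →ₗ[B] X i) := finrank_hom_congr e.toLinearMap e.surjective
  have h5 : Module.finrank k (K 0 →ₗ[B] X i) ≤ Module.finrank k (K i →ₗ[B] X 0) := by
    cases i with
    | zero => exact le_rfl
    | succ l =>
      have hb := balance (k := k) K P ι π hι hex hπ hP X J f g hf hex' hg hJ l 0
      have hN : NJ (k := k) (K 0) (g l) = ⊥ := by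
        rw [eq_bot_iff]
        rintro φ ⟨ψ, rfl⟩
        have hN' := NJ_eq_bot (k := k) (f l) (g l) (hex' l) (hess l)
        have : (g l ∘ₗ (ψ ∘ₗ e.symm.toLinearMap)) ∈
            NJ (k := k) (B ⧸ Ring.jacobson B) (g l) := ⟨_, rfl⟩
        rw [hN', Submodule.mem_bot] at this
        rw [Submodule.mem_bot]
        ext z
        have h6 := congrFun (congrArg DFunLike.coe this) (e z)
        simpa using h6
      rw [hN, zero_add] at hb
      refine le_trans ?_ hb
      exact (Submodule.quotEquivOfEqBot (⊥ : Submodule k (K 0 →ₗ[B] X (l + 1))) rfl).finrank_eq.ge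
  have h6 : Module.finrank k (K i →ₗ[B] X 0) ≤
      Module.finrank k (K i) * Module.finrank k (X 0) := finrank_hom_le
  calc Module.finrank k (J i) ≤ Module.finrank k B * Module.finrank k (soc B (J i)) := h1
    _ ≤ Module.finrank k B * (Module.finrank k (K i) * Module.finrank k (X 0)) := by
      refine Nat.mul_le_mul_left _ ?_
      exact le_trans h2 (le_trans h3 (le_trans h4 (le_trans h5 h6)))

end Pool.Agent.Lib_helper54.GSC
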