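import Mathlib
import Pool.Agent.Lib_helper54.GSC.H6
import Pool.Agent.Lib_helper54.GSC.B7c
import Pool.Agent.Lib_helper30.GSC.Dual
import Pool.Agent.Lib_helper21.GSC.H1

universe u

set_option linter.unusedSectionVars false

namespace Pool.Agent.Lib_helper54.GSC

open CategoryTheory Pool.Agent.GSC

instance {k B : Type u} [Field k] [Ring B] [Algebra k B] [Module.Finite k B] :
    Module.Finite k (B ⧸ Ring.jacobson B) :=
  Module.Finite.of_surjective ((Ring.jacobson B).mkQ.restrictScalars k)
    (Submodule.mkQ_surjective _)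

theorem finite_K {k B : Type u} [Field k] [Ring B] [Algebra k B] {M : Type u} [AddCommGroup M]
    [Module B M] (Q : ProjRes k B M) (i : ℕ) : Module.Finite k (Q.K i) :=
  Module.Finite.of_surjective ((Q.b i).restrictScalars k) (Q.surj i)

theorem finite_X {k B : Type u} [Field k] [Ring B] [Algebra k B] {M : Type u} [AddCommGroup M]
    [Module B M] (R : InjRes k B M) (i : ℕ) : Module.Finite k (R.X i) :=
  Module.Finite.of_injective ((R.f i).restrictScalars k) (R.inj i)

/-- H6, in terms of the structures. -/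
theorem H6 {k B : Type u} [Field k] [Ring B] [Algebra k B] [Module.Finite k B]
    {M : Type u} [AddCommGroup M] [Module k M] [Module B M] [IsScalarTower k B M]
    [Module.Finite k M] (R : InjRes k B M)
    (hess : ∀ i, ∀ S : Submodule B (R.J i), S ≠ ⊥ → S ⊓ LinearMap.range (R.f i) ≠ ⊥)
    (Q : ProjRes k B (B ⧸ Ring.jacobson B)) (i : ℕ) :
    Module.finrank k (R.J i) ≤
      Module.finrank k B * Module.finrank k (Q.K i) * Module.finrank k M := by
  have hK := finite_K Q
  have hX := finite_X R
  have h := finrank_J_le (k := k) Q.K Q.P Q.a Q.b Q.inj Q.exact Q.surj Q.proj Q.e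
    R.X R.J R.f R.g R.inj R.exact R.surj R.injective hess i
  have h0 : Module.finrank k (R.X 0) = Module.finrank k M :=
    (R.e.restrictScalars k).finrank_eq
  rw [h0, ← mul_assoc] at h
  exact h

/-- the essential coresolution -/
theorem exists_injRes (k B : Type u) [Field k] [Ring B] [Algebra k B] [Module.Finite k B]
    (M : Type u) [AddCommGroup M] [Module k M] [Module B M] [IsScalarTower k B M]
    [Module.Finite k M] : ∃ R : InjRes k B M,
      ∀ i, ∀ S : Submodule B (R.J i), S ≠ ⊥ → S ⊓ LinearMap.range (R.f i) ≠ ⊥ := by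
  obtain ⟨X, J, i1, i2, i3, i4, i5, i6, i7, i8, i9, f, g, h1, h2, h3, h4, h5, ⟨e⟩⟩ :=
    Pool.Agent.Lib_helper21.GSC.exists_coresolution k B M
  exact ⟨{ X := X, J := J, f := f, g := g, inj := h1, exact := h2, surj := h3,
           injective := h4, e := e }, h5⟩

/-- CLASS, one-sided: if one late Betti number of the top of `B` is small, then finite
injective dimension passes from `A ≃ Bᵐᵒᵖ` to `B`. -/
theorem small_betti (n c : ℕ) : ∃ m : ℕ, ∀ (k A B : Type u) [Field k] [Ring A] [Algebra k A]
    [Ring B] [Algebra k B] [Module.Finite k A] [Module.Finite k B] (_θ : A ≃ₐ[k] Bᵐᵒᵖ),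
    Module.finrank k B = n →
    (∃ p, HasInjectiveDimensionLT (ModuleCat.of A A) p) →
    ∀ Q : ProjRes k B (B ⧸ Ring.jacobson B), ∀ i, m ≤ i → Module.finrank k (Q.P i) ≤ c →
    ∃ p, HasInjectiveDimensionLT (ModuleCat.of B B) p := by
  obtain ⟨m, hm⟩ := growth_regular.{u} n (n * c * n)
  refine ⟨m, ?_⟩
  intro k A B _ _ _ _ _ _ _ θ hB hA Q i hi hc
  by_contra hinf
  obtain ⟨R, hess⟩ := exists_injRes k B B
  have h1 := (hm k A B θ hB hA hinf R.X R.J R.f R.g R.inj R.exact R.surj R.injective ⟨R.e⟩
    i hi).2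
  have h2 := H6 R hess Q i
  have hK := finite_K Q i
  have h3 : Module.finrank k (Q.K i) ≤ c :=
    le_trans (LinearMap.finrank_le_finrank_of_surjective
      (f := (Q.b i).restrictScalars k) (Q.surj i)) hc
  rw [hB] at h2
  have h4 : n * Module.finrank k (Q.K i) * n ≤ n * c * n :=
    Nat.mul_le_mul_right _ (Nat.mul_le_mul_left _ h3)
  omega

end Pool.Agent.Lib_helper54.GSC
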